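import Mathlib

/-!
# Primitive groups containing a primitive group on few points
-/

set_option autoImplicit false

namespace Pool.Agent.PD71

open MulAction Equiv

/-- A subgroup of small index of a symmetric group contains the alternating group. -/
theorem alt_le_of_index_lt {Ω : Type*} [Fintype Ω] [DecidableEq Ω] (K : Subgroup (Perm Ω))
    (h5 : 5 ≤ Nat.card Ω) (hK : K.index < Nat.card Ω) : alternatingGroup Ω ≤ K := by
  have hcore : K.normalCore = (MulAction.toPermHom (Perm Ω) (Perm Ω ⧸ K)).ker :=
    Subgroup.normalCore_eq_ker K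
  have hnt : Nontrivial K.normalCore := by
    rw [Subgroup.nontrivial_iff_ne_bot]
    intro hbot
    rw [hcore] at hbot
    have hinj : Function.Injective (MulAction.toPermHom (Perm Ω) (Perm Ω ⧸ K)) :=
      (MonoidHom.ker_eq_bot_iff _).1 hbot
    have h1 := Nat.card_le_card_of_injective _ hinj
    rw [Nat.card_perm, Nat.card_perm] at h1
    have h2 : K.index.factorial < (Nat.card Ω).factorial := by
      rw [Nat.factorial_lt]
      · exact hK
      · exact Nat.pos_of_ne_zero Subgroup.index_ne_zero_of_finite
    exact absurd h1 (not_le.2 h2)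
  have h3 := Equiv.Perm.alternatingGroup_le_of_normal h5 (N := K.normalCore) hnt
  exact h3.trans K.normalCore_le

/-- Jordan's theorem and the index: a primitive group of degree `n` in which the pointwise
stabilizer of all but `k` points is primitive on these `k` points contains the alternating group if
`n` is large. -/
theorem alt_le_of_primitive {Ω : Type*} [Fintype Ω] [DecidableEq Ω] (K : Subgroup (Perm Ω))
    (hK : IsPreprimitive K Ω) (s : Set Ω) (k : ℕ) (hk : 2 ≤ k)
    (hs : s.ncard + k = Nat.card Ω) (h5 : 5 ≤ Nat.card Ω) (hkn : k < Nat.card Ω)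
    (hkf : (k - 1).factorial < Nat.card Ω)
    (hprim : IsPreprimitive (fixingSubgroup K s) (SubMulAction.ofFixingSubgroup K s)) :
    alternatingGroup Ω ≤ K := by
  apply alt_le_of_index_lt K h5
  refine lt_of_le_of_lt ?_ hkf
  obtain ⟨m, hm⟩ : ∃ m, s.ncard = m + 1 := ⟨s.ncard - 1, by omega⟩
  have hJ := hK.isMultiplyPreprimitive hm (by omega) hprim
  have hT : IsMultiplyPretransitive K Ω (m + 2) := hJ.isMultiplyPretransitive
  obtain ⟨s', -, hs'⟩ : ∃ s' : Set Ω, s' ⊆ Set.univ ∧ s'.ncard = m + 2 := by
    apply Set.exists_subset_card_eq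
    rw [Set.ncard_univ]
    omega
  have h1 := hT.index_of_fixingSubgroup_mul hs'
  have h2 : Nat.card Ω - (m + 2) = k - 1 := by omega
  rw [h2] at h1
  have h3 : (fixingSubgroup K s').index ≤ Nat.card K :=
    Nat.le_of_dvd Nat.card_pos (Subgroup.index_dvd_card _)
  have h4 : Nat.card K * K.index = (Nat.card Ω).factorial := by
    rw [Subgroup.card_mul_index, Nat.card_perm]
  have h5 : Nat.card K * K.index ≤ Nat.card K * (k - 1).factorial := by
    rw [h4, ← h1]
    exact Nat.mul_le_mul_right _ h3
  exact Nat.le_of_mul_le_mul_left h5 Nat.card_pos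

end Pool.Agent.PD71
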