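import Pool.Agent.PD71.Conv

/-!
# The reduction of the question to finite groups
-/

set_option autoImplicit false

universe u v

namespace Pool.Agent.PD71

open OnePoint Pool.Agent.H82.PL

theorem realize {ι : Type} {S : ι → Type} [∀ i, Group (S i)] [∀ i, TopologicalSpace (S i)]
    [∀ i, IsTopologicalGroup (S i)] [∀ i, CompactSpace (S i)] [∀ i, T2Space (S i)]
    [∀ i, TotallyDisconnectedSpace (S i)] {d : ℕ} (hT : Test S d) : Realized S d := by
  classical
  let _ : TopologicalSpace ι := ⊥
  have : DiscreteTopology ι := ⟨rfl⟩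
  obtain ⟨G, σ, hG, hgen, hσc, hnull, hL, hinj⟩ := main_group d hT
  have hGc : CompactSpace G := isCompact_iff_compactSpace.1 hG.isCompact
  have hsep : TotallySeparatedSpace (Sp σ) := totallySeparated σ hσc hnull
  refine ⟨G, Sp σ, inferInstance, inferInstance, inferInstance, inferInstance, inferInstance,
    inferInstance, inferInstance, inferInstance, inferInstance, inferInstance, pile σ,
    projective_pile σ hσc hnull hL, hgen, fun i => pt σ 1 (i : OnePoint ι), ?_, ?_, ?_⟩
  · intro i j h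
    have h1 : pt σ 1 (j : OnePoint ι) ∈ (pile σ).orbitOf (pt σ 1 (i : OnePoint ι)) := by
      rw [h]
      exact ⟨1, (pile σ).act_one _⟩
    obtain ⟨g, hg⟩ := h1
    have h2 : pt σ (1 * g) (i : OnePoint ι) = pt σ 1 (j : OnePoint ι) := hg
    rw [pt_eq] at h2
    exact OnePoint.coe_eq_coe.1 h2.1
  · intro i
    let e1 : S i ≃* (σ i).range := MonoidHom.ofInjective (hinj i)
    let e2 : (σ i).range ≃* (pile σ).stab (pt σ 1 (i : OnePoint ι)) :=
      MulEquiv.subgroupCongr (stab_coe σ i).symm
    let e : S i ≃* (pile σ).stab (pt σ 1 (i : OnePoint ι)) := e1.trans e2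
    have hev : ∀ a, ((e a : (pile σ).stab (pt σ 1 (i : OnePoint ι))) : G) = σ i a :=
      fun _ => rfl
    have hec : Continuous e := by
      rw [continuous_induced_rng]
      exact hσc i
    refine ⟨e.symm, ?_, ?_⟩
    · exact Continuous.continuous_symm_of_equiv_compact_to_t2 (f := e.toEquiv) hec
    · exact hec
  · intro x hx
    obtain ⟨⟨g, j⟩, rfl⟩ := surjective_pt σ x
    induction j using OnePoint.rec with
    | infty =>
      exfalso
      apply hx
      rw [eq_bot_iff]
      intro h hh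
      have h1 := (mem_stab_pile σ g ∞ h).1 hh
      rw [sub_infty, Subgroup.mem_bot] at h1
      rw [Subgroup.mem_bot]
      have h2 : h = g⁻¹ * (g * h * g⁻¹) * g := by group
      rw [h2, h1]
      group
    | coe n =>
      refine ⟨n, g, ?_⟩
      show (pile σ).act (pt σ 1 (n : OnePoint ι)) g = pt σ g (n : OnePoint ι)
      rw [pile_act, one_mul]

theorem test_of_weaklyRealized {ι : Type} {S : ι → Type} [∀ i, Group (S i)]
    [∀ i, TopologicalSpace (S i)] {d : ℕ} (h : WeaklyRealized.{u, v} S d) : Test S d := by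
  obtain ⟨G, T, _, _, _, _, _, _, _, _, _, _, P, hP, ⟨h, hh⟩, t, ht, hq⟩ := h
  choose q hq1 hq2 using hq
  exact test_of_pile P hP h hh t ht q hq1 hq2

theorem weaklyRealized_of_realized {ι : Type} {S : ι → Type} [∀ i, Group (S i)]
    [∀ i, TopologicalSpace (S i)] {d : ℕ} (h : Realized S d) : WeaklyRealized.{0, 0} S d := by
  obtain ⟨G, T, _, _, _, _, _, _, _, _, _, _, P, hP, hG, t, ht, hq, -⟩ := h
  refine ⟨G, T, _, _, inferInstance, inferInstance, inferInstance, inferInstance, _,
    inferInstance, inferInstance, inferInstance, P, hP, hG, t, ht, fun i => ?_⟩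
  obtain ⟨e, he, -⟩ := hq i
  exact ⟨e.toMonoidHom, he, e.surjective⟩

/-- The stabilizers of the points of one orbit are isomorphic. -/
theorem stab_act {G : Type u} {T : Type v} [Group G] [TopologicalSpace G] [TopologicalSpace T]
    (P : Pile G T) (t : T) (g : G) : Nonempty (P.stab t ≃* P.stab (P.act t g)) := by
  have hst : P.stab (P.act t g) = (P.stab t).map (MulAut.conj g⁻¹).toMonoidHom := by
    ext x
    rw [Subgroup.mem_map]
    constructor
    · intro hx
      refine ⟨g * x * g⁻¹, ?_, ?_⟩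
      · have hx' : P.act (P.act t g) x = P.act t g := hx
        show P.act t (g * x * g⁻¹) = t
        rw [P.act_mul, P.act_mul, hx', ← P.act_mul, mul_inv_cancel, P.act_one]
      · show g⁻¹ * (g * x * g⁻¹) * g⁻¹⁻¹ = x
        group
    · rintro ⟨y, hy, rfl⟩
      have hy' : P.act t y = t := hy
      show P.act (P.act t g) (g⁻¹ * y * g⁻¹⁻¹) = P.act t g
      rw [← P.act_mul]
      have h1 : g * (g⁻¹ * y * g⁻¹⁻¹) = y * g := by group
      rw [h1, P.act_mul, hy']
  rw [hst]
  exact ⟨(P.stab t).equivMapOfInjective _ (MulAut.conj g⁻¹).injective⟩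

theorem fails_simpleTest {d : ℕ} (h : Fails.{u, v} d) : SimpleTest d := by
  classical
  obtain ⟨G, T, _, _, _, _, _, _, _, _, _, _, P, hP, ⟨h, hh⟩, hinf⟩ := h
  let O : ℕ ↪ P.nontrivOrbits := hinf.natEmbedding
  have hO : ∀ i, ∃ t, P.stab t ≠ ⊥ ∧ (O i : Set T) = P.orbitOf t := fun i => (O i).2
  choose t ht1 ht2 using hO
  choose S iS fS sS q hq1 hq2 using fun i => exists_simple_quot_stab P (t i) (ht1 i)
  refine ⟨S, iS, fS, sS, ?_⟩
  let _ : ∀ i, TopologicalSpace (S i) := fun i => ⊥
  have hd : ∀ i, DiscreteTopology (S i) := fun i => ⟨rfl⟩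
  have hT : Test S d := by
    apply test_of_pile P hP h hh t _ q _ hq1
    · intro i j hij
      apply O.injective
      apply Subtype.ext
      rw [ht2, ht2, hij]
    · intro i
      exact continuous_of_openKer (q i) (hq2 i)
  intro X _ _ f hf
  exact hT X f (fun i => isOpen_discrete _) hf

theorem simple_of_equiv {A B : Type*} [Group A] [Group B] (e : A ≃* B) (h : IsSimpleGroup A) :
    IsSimpleGroup B := by
  have h1 : Nontrivial A := h.toNontrivial
  have h2 : Nontrivial B := e.symm.toEquiv.nontrivial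
  exact IsSimpleGroup.isSimpleGroup_of_surjective e.toMonoidHom e.surjective

theorem simpleTest_simpleFails {d : ℕ} (h : SimpleTest d) : SimpleFails d := by
  classical
  obtain ⟨S, iS, fS, sS, hS⟩ := h
  let _ : ∀ i, TopologicalSpace (S i) := fun i => ⊥
  have hd : ∀ i, DiscreteTopology (S i) := fun i => ⟨rfl⟩
  have hT : Test S d := fun X _ _ f _ hf => hS X f hf
  obtain ⟨G, T, iG, iG1, iG2, iG3, iG4, iG5, iT1, iT2, iT3, iT4, P, hP, hG, t, ht, he, hx⟩ :=
    realize hT
  choose e he1 he2 using he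
  have hsimple : ∀ i, IsSimpleGroup (P.stab (t i)) := fun i =>
    simple_of_equiv (e i).symm (sS i)
  have hfin : ∀ i, Finite (P.stab (t i)) := fun i => Finite.of_equiv _ (e i).symm.toEquiv
  have hnt : ∀ i, P.stab (t i) ≠ ⊥ := by
    intro i h
    exact (Subgroup.nontrivial_iff_ne_bot _).1 (hsimple i).toNontrivial h
  refine ⟨G, T, iG, iG1, iG2, iG3, iG4, iG5, iT1, iT2, iT3, iT4, P, hP, hG, ?_, ?_⟩
  · apply Set.infinite_of_injective_forall_mem (f := fun i : ℕ => P.orbitOf (t i))
    · intro i j hij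
      exact ht i j hij
    · intro i
      exact ⟨t i, hnt i, rfl⟩
  · intro x hx0
    obtain ⟨i, g, rfl⟩ := hx x hx0
    obtain ⟨e'⟩ := stab_act P (t i) g
    exact ⟨Finite.of_equiv _ e'.toEquiv, simple_of_equiv e' (hsimple i)⟩

theorem simpleFails_fails {d : ℕ} (h : SimpleFails d) : Fails.{0, 0} d := by
  obtain ⟨G, T, iG, iG1, iG2, iG3, iG4, iG5, iT1, iT2, iT3, iT4, P, hP, hG, hinf, -⟩ := h
  exact ⟨G, T, iG, iG1, iG2, iG3, iG4, iG5, iT1, iT2, iT3, iT4, P, hP, hG, hinf⟩

end Pool.Agent.PD71
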