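import Pool.Agent.PD71.Alt
import Pool.Agent.PD71.Main

/-!
# Two simple groups generate a large alternating group
-/

set_option autoImplicit false

universe u v

namespace Pool.Agent.PD71

open MulAction Equiv Pool.Agent.H82.PL

/-- The action on the cosets of a maximal subgroup is primitive. -/
theorem preprimitive_quot {S : Type*} [Group S] (M : Subgroup S) (hM : IsCoatom M) :
    IsPreprimitive S (S ⧸ M) := by
  have hnt : Nontrivial (S ⧸ M) := by
    obtain ⟨x, hx⟩ : ∃ x, x ∉ M := by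
      by_contra hcon
      push Not at hcon
      exact hM.1 (eq_top_iff.2 fun x _ => hcon x)
    refine ⟨⟨(x : S ⧸ M), ((1 : S) : S ⧸ M), fun h => hx ?_⟩⟩
    rw [eq_comm, QuotientGroup.eq, inv_one, one_mul] at h
    exact h
  rw [← MulAction.isCoatom_stabilizer_iff_preprimitive S ((1 : S) : S ⧸ M),
    MulAction.stabilizer_quotient]
  exact hM

/-- Two permutation groups: a transitive one, primitive of degree `n`, and one which is primitive on
`k` points and trivial on the others. -/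
theorem alt_le_of_pair {S1 S2 : Type*} [Group S1] [Group S2] [Finite S1] [Finite S2]
    (M1 : Subgroup S1) (M2 : Subgroup S2) (hM1 : IsCoatom M1) (hM2 : IsCoatom M2)
    {Ω : Type*} [Fintype Ω] [DecidableEq Ω] (e1 : (S1 ⧸ M1) ↪ Ω) (e2 : (S2 ⧸ M2) ≃ Ω)
    (f1 : S1 →* Perm Ω) (f2 : S2 →* Perm Ω) (h1 : ∀ a x, f1 a (e1 x) = e1 (a • x))
    (h1' : ∀ a y, y ∉ Set.range e1 → f1 a y = y) (h2 : ∀ a x, f2 a (e2 x) = e2 (a • x))
    (K : Subgroup (Perm Ω)) (w1 w2 : Perm Ω) (hK1 : ∀ a, w1⁻¹ * f1 a * w1 ∈ K)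
    (hK2 : ∀ a, w2⁻¹ * f2 a * w2 ∈ K) (h5 : 5 ≤ Nat.card Ω) (hk : 2 ≤ M1.index)
    (hkn : M1.index < Nat.card Ω) (hkf : (M1.index - 1).factorial < Nat.card Ω) :
    alternatingGroup Ω ≤ K := by
  -- `K` is primitive
  have hp2 := preprimitive_quot M2 hM2
  have hp1 := preprimitive_quot M1 hM1
  have hKp : IsPreprimitive K Ω := by
    let F : (S2 ⧸ M2) →ₑ[fun a : S2 => (⟨w2⁻¹ * f2 a * w2, hK2 a⟩ : K)] Ω :=
      { toFun := fun x => w2⁻¹ (e2 x)
        map_smul' := by
          intro a x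
          show w2⁻¹ (e2 (a • x)) = (w2⁻¹ * f2 a * w2) (w2⁻¹ (e2 x))
          rw [← h2]
          simp [Perm.mul_apply] }
    have hF : Function.Surjective F := by
      intro y
      obtain ⟨x, hx⟩ := e2.surjective (w2 y)
      refine ⟨x, ?_⟩
      show w2⁻¹ (e2 x) = y
      rw [hx]
      simp
    exact IsPreprimitive.of_surjective hF
  set s : Set Ω := {y | w1 y ∉ Set.range e1} with hs
  have hcompl : sᶜ = Set.range fun x => w1⁻¹ (e1 x) := by
    ext y
    constructor
    · intro hy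
      have hy' : w1 y ∈ Set.range e1 := by
        by_contra hcon
        exact hy hcon
      obtain ⟨x, hx⟩ := hy'
      refine ⟨x, ?_⟩
      show w1⁻¹ (e1 x) = y
      rw [hx]
      simp
    · rintro ⟨x, rfl⟩ hy
      apply hy
      exact ⟨x, by simp⟩
  have hcard : s.ncard + M1.index = Nat.card Ω := by
    have h3 : sᶜ.ncard = M1.index := by
      rw [hcompl, ← Set.image_univ, Set.ncard_image_of_injective _ (by
        intro x y hxy
        exact e1.injective (w1⁻¹.injective hxy)), Set.ncard_univ]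
      rfl
    rw [← h3]
    exact Set.ncard_add_ncard_compl s
  apply alt_le_of_primitive K hKp s M1.index hk hcard h5 hkn hkf
  have hfix : ∀ a, (⟨w1⁻¹ * f1 a * w1, hK1 a⟩ : K) ∈ fixingSubgroup K s := by
    intro a
    rw [mem_fixingSubgroup_iff]
    intro y hy
    show (w1⁻¹ * f1 a * w1) y = y
    rw [Perm.mul_apply, Perm.mul_apply, h1' a _ hy]
    simp
  let F : (S1 ⧸ M1) →ₑ[fun a : S1 => (⟨_, hfix a⟩ : fixingSubgroup K s)]
      (SubMulAction.ofFixingSubgroup K s) :=
    { toFun := fun x => ⟨w1⁻¹ (e1 x), by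
        rw [SubMulAction.mem_ofFixingSubgroup_iff]
        intro hy
        apply hy
        exact ⟨x, by simp⟩⟩
      map_smul' := by
        intro a x
        apply Subtype.ext
        show w1⁻¹ (e1 (a • x)) = (w1⁻¹ * f1 a * w1) (w1⁻¹ (e1 x))
        rw [← h1]
        simp [Perm.mul_apply] }
  have hF : Function.Surjective F := by
    rintro ⟨y, hy⟩
    rw [SubMulAction.mem_ofFixingSubgroup_iff] at hy
    have hy' : y ∈ sᶜ := hy
    rw [hcompl] at hy'
    obtain ⟨x, hx⟩ := hy'
    exact ⟨x, Subtype.ext hx⟩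
  exact IsPreprimitive.of_surjective hF

end Pool.Agent.PD71
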