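import Pool.Agent.PD71.AltF

/-!
# Infinitely many orbits force alternating quotients
-/

set_option autoImplicit false

universe u v

namespace Pool.Agent.PD71

open MulAction Equiv Pool.Agent.H82.PL

theorem even_of_simple {S : Type*} [Group S] [Finite S] [IsSimpleGroup S] (hS : 2 < Nat.card S)
    (f : S →* ℤˣ) (a : S) : f a = 1 := by
  rcases (inferInstance : f.ker.Normal).eq_bot_or_eq_top with h | h
  · exfalso
    have hinj : Function.Injective f := (MonoidHom.ker_eq_bot_iff f).1 h
    have h1 := Nat.card_le_card_of_injective _ hinj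
    have h2 : Nat.card ℤˣ = 2 := by
      rw [Nat.card_eq_fintype_card]
      rfl
    omega
  · have h1 : a ∈ f.ker := by
      rw [h]
      exact Subgroup.mem_top a
    exact h1

section
variable {G : Type u} {T : Type v} [Group G] [TopologicalSpace G] [IsTopologicalGroup G]
  [CompactSpace G] [T2Space G] [TotallyDisconnectedSpace G]
  [TopologicalSpace T] [CompactSpace T] [T2Space T] [TotallyDisconnectedSpace T]

/-- A proper subgroup of a finite quotient of the stabilizer shows that the stabilizer has a proper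
open subgroup of the same index. -/
theorem smallIndex_of_quot (P : Pile G T) (t : T) {S : Type} [Group S] [Finite S]
    (q : P.stab t →* S) (hq : Function.Surjective q) (hqo : IsOpen (q.ker : Set (P.stab t)))
    (M : Subgroup S) (hM : M ≠ ⊤) {n : ℕ} (hn : M.index ≤ n) : P.SmallIndex n t := by
  have hclosed : IsClosed ((P.stab t : Subgroup G) : Set G) := by
    have h1 : ((P.stab t : Subgroup G) : Set G) = (fun g => P.act t g) ⁻¹' {t} := rfl
    rw [h1]
    exact isClosed_singleton.preimage (P.cont.comp (continuous_const.prodMk continuous_id))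
  have hopen : IsOpen ((M.comap q : Subgroup (P.stab t)) : Set (P.stab t)) := by
    apply Subgroup.isOpen_mono (H₁ := q.ker) _ hqo
    intro x hx
    rw [Subgroup.mem_comap, MonoidHom.mem_ker.1 hx]
    exact one_mem _
  have hcl : IsClosed ((M.comap q : Subgroup (P.stab t)) : Set (P.stab t)) :=
    Subgroup.isClosed_of_isOpen _ hopen
  have hrel : ((M.comap q).map (P.stab t).subtype).relIndex (P.stab t) = M.index := by
    rw [Subgroup.relIndex, Subgroup.subgroupOf, Subgroup.comap_map_eq_self_of_injective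
      (P.stab t).subtype_injective, Subgroup.index_comap_of_surjective _ hq]
  refine ⟨(M.comap q).map (P.stab t).subtype, ?_, ?_, ?_, ?_⟩
  · rw [Subgroup.coe_map]
    exact hclosed.isClosedEmbedding_subtypeVal.isClosedMap _ hcl
  · refine lt_of_le_of_ne (Subgroup.map_subtype_le _) ?_
    intro h
    apply hM
    rw [eq_top_iff]
    intro y _
    obtain ⟨x, rfl⟩ := hq y
    have h1 : (x : G) ∈ (M.comap q).map (P.stab t).subtype := by
      rw [h]
      exact x.2
    obtain ⟨z, hz, hzx⟩ := h1
    have h2 : z = x := Subtype.ext hzx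
    rw [← h2]
    exact hz
  · rw [hrel]
    exact Subgroup.index_ne_zero_of_finite
  · rw [hrel]
    exact hn

/-- There are points with nontrivial stabilizers of large index. -/
theorem exists_large (P : Pile G T) (hP : P.Projective) {d : ℕ} (h : Fin d → G)
    (hh : (Subgroup.closure (Set.range h)).topologicalClosure = ⊤)
    (hinf : P.nontrivOrbits.Infinite) (m : ℕ) :
    ∃ t, P.stab t ≠ ⊥ ∧ ¬ P.SmallIndex m t := by
  obtain ⟨O, hO, hO'⟩ := hinf.exists_notMem_finite (finite_small P hP h hh m).1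
  obtain ⟨t, ht, rfl⟩ := hO
  exact ⟨t, ht, fun hs => hO' ⟨t, hs, rfl⟩⟩

theorem exists_alt (P : Pile G T) (hP : P.Projective) {d : ℕ} (h : Fin d → G)
    (hh : (Subgroup.closure (Set.range h)).topologicalClosure = ⊤)
    (hinf : P.nontrivOrbits.Infinite) (N : ℕ) :
    ∃ n, N ≤ n ∧ ∃ ψ : G →* alternatingGroup (Fin n), Function.Surjective ψ ∧
      IsOpen (ψ.ker : Set G) := by
  classical
  obtain ⟨t1, ht1, ht1'⟩ := exists_large P hP h hh hinf 4
  obtain ⟨S1, iS1, fS1, sS1, q1, hq1, hq1o⟩ := exists_simple_quot_stab P t1 ht1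
  obtain ⟨M1, hM1⟩ := IsCoatomic.exists_coatom (Subgroup S1)
  have hk : 4 < M1.index := by
    by_contra hcon
    exact ht1' (smallIndex_of_quot P t1 q1 hq1 hq1o M1 hM1.1 (not_lt.1 hcon))
  set m : ℕ := N + M1.index.factorial + M1.index + 5 with hm
  obtain ⟨t2, ht2, ht2'⟩ := exists_large P hP h hh hinf m
  obtain ⟨S2, iS2, fS2, sS2, q2, hq2, hq2o⟩ := exists_simple_quot_stab P t2 ht2
  obtain ⟨M2, hM2⟩ := IsCoatomic.exists_coatom (Subgroup S2)
  have hn : m < M2.index := by
    by_contra hcon
    exact ht2' (smallIndex_of_quot P t2 q2 hq2 hq2o M2 hM2.1 (not_lt.1 hcon))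
  -- the two points are in distinct orbits
  have hsmall1 : P.SmallIndex m t1 :=
    smallIndex_of_quot P t1 q1 hq1 hq1o M1 hM1.1 (by omega)
  have hdist : ∀ g, P.act t1 g ≠ t2 := by
    intro g hg
    apply ht2'
    rw [← hg]
    exact small_act P hsmall1 g
  -- the permutation representations
  let n : ℕ := M2.index
  have hnn : n = M2.index := rfl
  let e2 : (S2 ⧸ M2) ≃ Fin n := Finite.equivFinOfCardEq rfl
  obtain ⟨e1⟩ : Nonempty ((S1 ⧸ M1) ↪ Fin n) := by
    have : Fintype (S1 ⧸ M1) := Fintype.ofFinite _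
    apply Function.Embedding.nonempty_of_card_le
    rw [Fintype.card_fin, ← Nat.card_eq_fintype_card]
    show M1.index ≤ n
    omega
  let f1 : S1 →* Perm (Fin n) :=
    (Equiv.Perm.viaEmbeddingHom e1).comp (MulAction.toPermHom S1 (S1 ⧸ M1))
  let f2 : S2 →* Perm (Fin n) :=
    (e2.permCongrHom).toMonoidHom.comp (MulAction.toPermHom S2 (S2 ⧸ M2))
  have h1 : ∀ a x, f1 a (e1 x) = e1 (a • x) := by
    intro a x
    exact Equiv.Perm.viaEmbedding_apply _ _ _
  have h1' : ∀ a y, y ∉ Set.range e1 → f1 a y = y := by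
    intro a y hy
    exact Equiv.Perm.viaEmbedding_apply_of_notMem _ _ _ hy
  have h2 : ∀ a x, f2 a (e2 x) = e2 (a • x) := by
    intro a x
    show e2 (a • (e2.symm (e2 x))) = _
    rw [Equiv.symm_apply_apply]
  have hc1 : 2 < Nat.card S1 := by
    have := Subgroup.index_dvd_card M1
    have := Nat.le_of_dvd Nat.card_pos this
    omega
  have hc2 : 2 < Nat.card S2 := by
    have := Subgroup.index_dvd_card M2
    have := Nat.le_of_dvd Nat.card_pos this
    omega
  let F1 : S1 →* alternatingGroup (Fin n) := f1.codRestrict (alternatingGroup (Fin n))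
    (fun a => Equiv.Perm.mem_alternatingGroup.2 (even_of_simple hc1 (Equiv.Perm.sign.comp f1) a))
  let F2 : S2 →* alternatingGroup (Fin n) := f2.codRestrict (alternatingGroup (Fin n))
    (fun a => Equiv.Perm.mem_alternatingGroup.2 (even_of_simple hc2 (Equiv.Perm.sign.comp f2) a))
  -- the two points
  let t : Fin 2 → T := fun i => match i with
    | 0 => t1
    | 1 => t2
  let θ : ∀ i, P.stab (t i) →* alternatingGroup (Fin n) := fun i => match i with
    | 0 => F1.comp q1
    | 1 => F2.comp q2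
  have hθ : ∀ i, IsOpen ((θ i).ker : Set (P.stab (t i))) := by
    intro i
    match i with
    | 0 =>
      apply Subgroup.isOpen_mono (H₁ := q1.ker) _ hq1o
      intro x hx
      show F1 (q1 x) = 1
      rw [MonoidHom.mem_ker.1 hx, map_one]
    | 1 =>
      apply Subgroup.isOpen_mono (H₁ := q2.ker) _ hq2o
      intro x hx
      show F2 (q2 x) = 1
      rw [MonoidHom.mem_ker.1 hx, map_one]
  obtain ⟨NN, hNN⟩ := exists_common t θ hθ
  obtain ⟨ψ, hψ, w, hw⟩ := core P hP t (by
    intro i j g hg
    match i, j with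
    | 0, 0 => rfl
    | 1, 1 => rfl
    | 0, 1 => exact absurd hg (hdist g)
    | 1, 0 =>
      exfalso
      apply hdist g⁻¹
      have hg' : P.act t2 g = t1 := hg
      rw [← hg', ← P.act_mul, mul_inv_cancel, P.act_one]) θ NN hNN
  refine ⟨n, by omega, ψ, ?_, hψ⟩
  set K : Subgroup (Perm (Fin n)) := ψ.range.map (alternatingGroup (Fin n)).subtype with hK
  have hK1 : ∀ a, ((w 0 : alternatingGroup (Fin n)) : Perm (Fin n))⁻¹ * f1 a * (w 0) ∈ K := by
    intro a
    obtain ⟨g, rfl⟩ := hq1 a
    refine ⟨ψ g, ⟨_, rfl⟩, ?_⟩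
    rw [hw 0 g]
    rfl
  have hK2 : ∀ a, ((w 1 : alternatingGroup (Fin n)) : Perm (Fin n))⁻¹ * f2 a * (w 1) ∈ K := by
    intro a
    obtain ⟨g, rfl⟩ := hq2 a
    refine ⟨ψ g, ⟨_, rfl⟩, ?_⟩
    rw [hw 1 g]
    rfl
  have hcard : Nat.card (Fin n) = n := by rw [Nat.card_fin]
  have hfac : (M1.index - 1).factorial ≤ M1.index.factorial := Nat.factorial_le (by omega)
  have hle := alt_le_of_pair M1 M2 hM1 hM2 e1 e2 f1 f2 h1 h1' h2 K _ _ hK1 hK2
    (by omega) (by omega) (by omega) (by omega)
  intro x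
  obtain ⟨y, ⟨g, hg⟩, hy⟩ := hle x.2
  exact ⟨g, by rw [hg]; exact Subtype.ext hy⟩

end

end Pool.Agent.PD71
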