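import Pool.Agent.PD71.Univ
import Pool.Agent.H82.Pile.Final

/-!
# The test is necessary
-/

set_option autoImplicit false

universe u v

namespace Pool.Agent.PD71

open Pool.Agent.H82.PL

variable {G : Type u} {T : Type v} [Group G] [TopologicalSpace G] [IsTopologicalGroup G]
  [CompactSpace G] [T2Space G] [TotallyDisconnectedSpace G]
  [TopologicalSpace T] [CompactSpace T] [T2Space T] [TotallyDisconnectedSpace T]

/-- The image of a homomorphism with open kernel is generated by the images of topological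
generators. -/
theorem mem_closure_image {X : Type} [Group X] {d : ℕ} (h : Fin d → G)
    (hh : (Subgroup.closure (Set.range h)).topologicalClosure = ⊤) (ψ : G →* X)
    (hψ : IsOpen (ψ.ker : Set G)) (g : G) :
    ψ g ∈ Subgroup.closure (Set.range fun i => ψ (h i)) := by
  have h1 : IsOpen (((Subgroup.closure (Set.range fun i => ψ (h i))).comap ψ : Subgroup G) :
      Set G) := by
    apply Subgroup.isOpen_mono (H₁ := ψ.ker) _ hψ
    intro x hx
    rw [Subgroup.mem_comap, MonoidHom.mem_ker.1 hx]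
    exact one_mem _
  have h2 := Subgroup.isClosed_of_isOpen _ h1
  have h3 : Subgroup.closure (Set.range h) ≤
      (Subgroup.closure (Set.range fun i => ψ (h i))).comap ψ := by
    rw [Subgroup.closure_le]
    rintro _ ⟨i, rfl⟩
    exact Subgroup.subset_closure ⟨i, rfl⟩
  have h4 := Subgroup.topologicalClosure_minimal _ h3 h2
  rw [hh] at h4
  exact h4 (Subgroup.mem_top g)

omit [T2Space G] in
/-- Homomorphisms of the stabilizers with open kernels kill a common open normal subgroup. -/
theorem exists_common {P : Pile G T} {m : ℕ} (t : Fin m → T) {X : Type} [Group X]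
    (θ : ∀ i, P.stab (t i) →* X) (hθ : ∀ i, IsOpen ((θ i).ker : Set (P.stab (t i)))) :
    ∃ N : OpenNormalSubgroup G, ∀ i (g : P.stab (t i)), (g : G) ∈ N → θ i g = 1 := by
  choose V hV1 hV2 using fun i => isOpen_induced_iff.1 (hθ i)
  obtain ⟨N, hN⟩ := ProfiniteGrp.exist_openNormalSubgroup_sub_open_nhds_of_one
    (U := ⋂ i, V i) (isOpen_iInter_of_finite hV1) (Set.mem_iInter.2 fun i => by
      have h1 : (1 : P.stab (t i)) ∈ Subtype.val ⁻¹' V i := by
        rw [hV2]
        exact one_mem _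
      exact h1)
  refine ⟨N, fun i g hg => ?_⟩
  have h1 : g ∈ Subtype.val ⁻¹' V i := Set.mem_iInter.1 (hN hg) i
  rw [hV2] at h1
  exact h1

theorem test_of_pile {ι : Type} {S : ι → Type} [∀ i, Group (S i)] [∀ i, TopologicalSpace (S i)]
    (P : Pile G T) (hP : P.Projective) {d : ℕ} (h : Fin d → G)
    (hh : (Subgroup.closure (Set.range h)).topologicalClosure = ⊤) (t : ι → T)
    (ht : ∀ i j, P.orbitOf (t i) = P.orbitOf (t j) → i = j)
    (q : ∀ i, P.stab (t i) →* S i) (hqc : ∀ i, Continuous (q i))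
    (hq : ∀ i, Function.Surjective (q i)) : Test S d := by
  classical
  intro X _ _ f hfo hf
  obtain ⟨m, ⟨e⟩⟩ := Finite.exists_equiv_fin hf.toFinset
  let t' : Fin m → T := fun k => t (e.symm k : hf.toFinset)
  let θ : ∀ k, P.stab (t' k) →* X := fun k => (f (e.symm k : hf.toFinset)).comp (q _)
  have hθ : ∀ k, IsOpen ((θ k).ker : Set (P.stab (t' k))) := fun k =>
    (hfo (e.symm k : hf.toFinset)).preimage (hqc _)
  obtain ⟨N, hN⟩ := exists_common t' θ hθ
  obtain ⟨ψ, hψ, w, hw⟩ := core P hP t' (by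
    intro k l g hg
    have h1 : P.orbitOf (t' k) = P.orbitOf (t' l) := by
      rw [← hg]
      ext x
      constructor
      · rintro ⟨a, rfl⟩
        exact ⟨g⁻¹ * a, by rw [← P.act_mul, mul_inv_cancel_left]⟩
      · rintro ⟨a, rfl⟩
        exact ⟨g * a, P.act_mul _ _ _⟩
    exact e.symm.injective (Subtype.ext (ht _ _ h1))) θ N hN
  refine ⟨fun i => ψ (h i), fun i => ?_⟩
  by_cases hi : f i = 1
  · refine ⟨1, fun a => ?_⟩
    rw [hi]
    simp
  · obtain ⟨k, hk⟩ : ∃ k, (e.symm k : hf.toFinset) = ⟨i, by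
        rw [Set.Finite.mem_toFinset]
        exact hi⟩ := e.symm.surjective _
    have hk' : ((e.symm k : hf.toFinset) : ι) = i := congrArg Subtype.val hk
    subst hk'
    refine ⟨w k, fun a => ?_⟩
    obtain ⟨g, rfl⟩ := hq _ a
    have h1 := hw k g
    have h2 : (w k)⁻¹ * f (e.symm k : hf.toFinset) (q _ g) * w k = ψ g := h1.symm
    rw [h2]
    exact mem_closure_image h hh ψ hψ g

/-- A nontrivial finite group has a simple quotient. -/
theorem exists_simple_quot (B : Type) [Group B] [Finite B] [Nontrivial B] :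
    ∃ (Q : Type) (_ : Group Q) (_ : Finite Q) (_ : IsSimpleGroup Q) (q : B →* Q),
      Function.Surjective q := by
  classical
  have hfin : {M : Subgroup B | M.Normal ∧ M ≠ ⊤}.Finite := Set.toFinite _
  have hne : {M : Subgroup B | M.Normal ∧ M ≠ ⊤}.Nonempty :=
    ⟨⊥, inferInstance, bot_ne_top⟩
  obtain ⟨M, hM⟩ := hfin.exists_maximal hne
  have hMn : M.Normal := hM.prop.1
  refine ⟨B ⧸ M, inferInstance, inferInstance, ?_, QuotientGroup.mk' M,
    QuotientGroup.mk'_surjective M⟩
  have hnt : Nontrivial (B ⧸ M) := by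
    obtain ⟨x, hx⟩ : ∃ x, x ∉ M := by
      by_contra hcon
      push Not at hcon
      exact hM.prop.2 (eq_top_iff.2 fun x _ => hcon x)
    refine ⟨⟨(x : B ⧸ M), 1, fun h => hx ?_⟩⟩
    exact (QuotientGroup.eq_one_iff x).1 h
  refine ⟨fun K hK => ?_⟩
  have hKn : (K.comap (QuotientGroup.mk' M)).Normal := hK.comap _
  have hle : M ≤ K.comap (QuotientGroup.mk' M) := by
    intro x hx
    rw [Subgroup.mem_comap, QuotientGroup.mk'_apply, (QuotientGroup.eq_one_iff x).2 hx]
    exact one_mem _
  by_cases htop : K.comap (QuotientGroup.mk' M) = ⊤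
  · right
    rw [eq_top_iff]
    intro y _
    obtain ⟨x, rfl⟩ := QuotientGroup.mk'_surjective M y
    have : x ∈ K.comap (QuotientGroup.mk' M) := by
      rw [htop]
      exact Subgroup.mem_top x
    exact this
  · left
    have h1 := hM.le_of_ge ⟨hKn, htop⟩ hle
    rw [eq_bot_iff]
    intro y hy
    obtain ⟨x, rfl⟩ := QuotientGroup.mk'_surjective M y
    have h2 : x ∈ M := h1 hy
    rw [QuotientGroup.mk'_apply, (QuotientGroup.eq_one_iff x).2 h2]
    exact one_mem _

omit [CompactSpace T] [T2Space T] [TotallyDisconnectedSpace T] in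
/-- A nontrivial stabilizer has a continuous finite simple quotient. -/
theorem exists_simple_quot_stab (P : Pile G T) (t : T) (ht : P.stab t ≠ ⊥) :
    ∃ (Q : Type) (_ : Group Q) (_ : Finite Q) (_ : IsSimpleGroup Q) (q : P.stab t →* Q),
      Function.Surjective q ∧ IsOpen (q.ker : Set (P.stab t)) := by
  obtain ⟨⟨g, hg⟩, hg0⟩ := Subgroup.ne_bot_iff_exists_ne_one.1 ht
  have hg1 : g ≠ 1 := fun h => hg0 (Subtype.ext h)
  obtain ⟨N, hN⟩ := ProfiniteGrp.exist_openNormalSubgroup_sub_open_nhds_of_one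
    (U := ({g} : Set G)ᶜ) isOpen_compl_singleton (fun h => hg1 h.symm)
  obtain ⟨A, iA, fA, π, hπ, hker⟩ := exists_finite_quot N
  let ρ : P.stab t →* A := π.comp (P.stab t).subtype
  have hnt : Nontrivial ρ.range := by
    refine ⟨⟨⟨ρ ⟨g, hg⟩, ⟨_, rfl⟩⟩, 1, fun h => ?_⟩⟩
    have h1 : π g = 1 := congrArg Subtype.val h
    exact hN ((hker g).1 h1) rfl
  obtain ⟨Q, iQ, fQ, sQ, q, hq⟩ := exists_simple_quot ρ.range
  refine ⟨Q, iQ, fQ, sQ, q.comp ρ.rangeRestrict, hq.comp ρ.rangeRestrict_surjective, ?_⟩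
  have hNc : IsOpen (Subtype.val ⁻¹' (N : Set G) : Set (P.stab t)) :=
    N.toOpenSubgroup.isOpen.preimage continuous_subtype_val
  have h1 : IsOpen (((N.toSubgroup).subgroupOf (P.stab t) : Subgroup (P.stab t)) :
      Set (P.stab t)) := hNc
  apply Subgroup.isOpen_mono _ h1
  intro x hx
  have hx' : (x : G) ∈ N := hx
  rw [← hker] at hx'
  have h2 : ρ.rangeRestrict x = 1 := Subtype.ext hx'
  rw [MonoidHom.mem_ker, MonoidHom.comp_apply, h2, map_one]

/-- In a projective pile with finitely generated group there are only countably many orbits with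
nontrivial stabilizers. -/
theorem countable_orbits (P : Pile G T) (hP : P.Projective) {d : ℕ} (h : Fin d → G)
    (hh : (Subgroup.closure (Set.range h)).topologicalClosure = ⊤) :
    P.nontrivOrbits.Countable := by
  have h1 : P.nontrivOrbits ⊆ ⋃ n : ℕ, P.smallOrbits n := by
    rintro O ⟨t, ht, rfl⟩
    obtain ⟨n, hn⟩ := exists_small P ht
    exact Set.mem_iUnion.2 ⟨n, t, hn, rfl⟩
  exact (Set.countable_iUnion fun n => (finite_small P hP h hh n).1.countable).mono h1

end Pool.Agent.PD71
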