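import Mathlib
import Pool.Agent.H82.Pile.Defs

/-!
# Definitions for the reduction of the question to finite groups
-/

set_option autoImplicit false

universe u v

namespace Pool.Agent.PD71

open Pool.Agent.H82.PL

/-- The topological group `G` is topologically generated by `d` elements. -/
def GenBy (G : Type u) [Group G] [TopologicalSpace G] [IsTopologicalGroup G] (d : ℕ) : Prop :=
  ∃ h : Fin d → G, (Subgroup.closure (Set.range h)).topologicalClosure = ⊤

/-- There is a projective pile `(G, T)` such that `G` is topologically generated by `d` elements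
and the points with nontrivial stabilizer fall into infinitely many orbits. -/
def Fails (d : ℕ) : Prop :=
  ∃ (G : Type u) (T : Type v) (_ : Group G) (_ : TopologicalSpace G) (_ : IsTopologicalGroup G)
    (_ : CompactSpace G) (_ : T2Space G) (_ : TotallyDisconnectedSpace G)
    (_ : TopologicalSpace T) (_ : CompactSpace T) (_ : T2Space T)
    (_ : TotallyDisconnectedSpace T) (P : Pile G T),
    P.Projective ∧ GenBy G d ∧ P.nontrivOrbits.Infinite

/-- The same, and every nontrivial stabilizer is a finite simple group (possibly cyclic). -/
def SimpleFails (d : ℕ) : Prop :=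
  ∃ (G T : Type) (_ : Group G) (_ : TopologicalSpace G) (_ : IsTopologicalGroup G)
    (_ : CompactSpace G) (_ : T2Space G) (_ : TotallyDisconnectedSpace G)
    (_ : TopologicalSpace T) (_ : CompactSpace T) (_ : T2Space T)
    (_ : TotallyDisconnectedSpace T) (P : Pile G T),
    P.Projective ∧ GenBy G d ∧ P.nontrivOrbits.Infinite ∧
      ∀ t, P.stab t ≠ ⊥ → Finite (P.stab t) ∧ IsSimpleGroup (P.stab t)

/-- The finite groups `S 0, S 1, …` pass the test for `d`: every finite group `X` with
homomorphisms `f i : S i → X`, almost all of them trivial, has a subgroup generated by `d` elements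
which contains for every `i` a conjugate of the image of `f i`. -/
def FinTest (S : ℕ → Type) [∀ i, Group (S i)] (d : ℕ) : Prop :=
  ∀ (X : Type) [Group X] [Finite X] (f : ∀ i, S i →* X), {i | f i ≠ 1}.Finite →
    ∃ x : Fin d → X, ∀ i, ∃ y : X, ∀ a, y⁻¹ * f i a * y ∈ Subgroup.closure (Set.range x)

/-- There is a sequence of finite simple groups (possibly cyclic) which passes the test for `d`. -/
def SimpleTest (d : ℕ) : Prop :=
  ∃ (S : ℕ → Type) (_ : ∀ i, Group (S i)), (∀ i, Finite (S i)) ∧ (∀ i, IsSimpleGroup (S i)) ∧
    FinTest S d

section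
variable {ι : Type} (S : ι → Type) [∀ i, Group (S i)] [∀ i, TopologicalSpace (S i)]

/-- Every finite group `X` with homomorphisms `f i : S i → X` with open kernels, almost all of
them trivial, has a subgroup generated by `d` elements which contains for every `i` a conjugate of
the image of `f i`. -/
def Test (d : ℕ) : Prop :=
  ∀ (X : Type) [Group X] [Finite X] (f : ∀ i, S i →* X),
    (∀ i, IsOpen ((f i).ker : Set (S i))) → {i | f i ≠ 1}.Finite →
    ∃ x : Fin d → X, ∀ i, ∃ y : X, ∀ a, y⁻¹ * f i a * y ∈ Subgroup.closure (Set.range x)

/-- There is a projective pile `(G, T)`, with `G` topologically generated by `d` elements, and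
there are points `t i` of `T` in pairwise distinct orbits such that the stabilizer of `t i` is
isomorphic to `S i` as a topological group, while the points outside the orbits of the `t i` have
trivial stabilizers. -/
def Realized (d : ℕ) : Prop :=
  ∃ (G T : Type) (_ : Group G) (_ : TopologicalSpace G) (_ : IsTopologicalGroup G)
    (_ : CompactSpace G) (_ : T2Space G) (_ : TotallyDisconnectedSpace G)
    (_ : TopologicalSpace T) (_ : CompactSpace T) (_ : T2Space T)
    (_ : TotallyDisconnectedSpace T) (P : Pile G T),
    P.Projective ∧ GenBy G d ∧ ∃ t : ι → T,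
      (∀ i j, P.orbitOf (t i) = P.orbitOf (t j) → i = j) ∧
      (∀ i, ∃ e : P.stab (t i) ≃* S i, Continuous e ∧ Continuous e.symm) ∧
      ∀ x, P.stab x ≠ ⊥ → ∃ i, x ∈ P.orbitOf (t i)

/-- There is a projective pile `(G, T)`, with `G` topologically generated by `d` elements, and
there are points `t i` of `T` in pairwise distinct orbits such that `S i` is a continuous
homomorphic image of the stabilizer of `t i`. -/
def WeaklyRealized (d : ℕ) : Prop :=
  ∃ (G : Type u) (T : Type v) (_ : Group G) (_ : TopologicalSpace G) (_ : IsTopologicalGroup G)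
    (_ : CompactSpace G) (_ : T2Space G) (_ : TotallyDisconnectedSpace G)
    (_ : TopologicalSpace T) (_ : CompactSpace T) (_ : T2Space T)
    (_ : TotallyDisconnectedSpace T) (P : Pile G T),
    P.Projective ∧ GenBy G d ∧ ∃ t : ι → T,
      (∀ i j, P.orbitOf (t i) = P.orbitOf (t j) → i = j) ∧
      ∀ i, ∃ q : P.stab (t i) →* S i, Continuous q ∧ Function.Surjective q

end

end Pool.Agent.PD71
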