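import Mathlib
import Pool.Agent.H82.Pile.Count

/-!
# Topological generators of profinite groups
-/

set_option autoImplicit false

universe u

namespace Pool.Agent.PD71

open Pool.Agent.H82.PL

variable {G : Type u} [Group G] [TopologicalSpace G] [IsTopologicalGroup G] [CompactSpace G]

omit [CompactSpace G] in
theorem continuous_of_openKer {A : Type*} [Group A] [TopologicalSpace A] [DiscreteTopology A]
    (π : G →* A) (h : IsOpen (π.ker : Set G)) : Continuous π := by
  rw [continuous_discrete_rng]
  intro a
  rw [isOpen_iff_mem_nhds]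
  intro g hg
  have hg' : π g = a := hg
  have h1 : (fun x => g⁻¹ * x) ⁻¹' (π.ker : Set G) ∈ nhds g := by
    apply (continuous_const_mul g⁻¹).continuousAt.preimage_mem_nhds
    rw [inv_mul_cancel]
    exact h.mem_nhds (one_mem _)
  filter_upwards [h1] with x hx
  have hx' : π (g⁻¹ * x) = 1 := hx
  rw [map_mul, map_inv, inv_mul_eq_one] at hx'
  show π x = a
  rw [← hx', hg']

/-- If every finite continuous quotient is generated by `d` elements, then so is the profinite
group, topologically. -/
theorem topGen [T2Space G] [TotallyDisconnectedSpace G] (d : ℕ)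
    (H : ∀ (X : Type) [Group X] [Finite X] (ρ : G →* X), IsOpen (ρ.ker : Set G) →
      Function.Surjective ρ → ∃ x : Fin d → X, Subgroup.closure (Set.range x) = ⊤) :
    ∃ h : Fin d → G, (Subgroup.closure (Set.range h)).topologicalClosure = ⊤ := by
  classical
  -- the set of the tuples generating `G` modulo `U`
  let K : OpenNormalSubgroup G → Set (Fin d → G) := fun U =>
    {h | ∀ g, ∃ k ∈ Subgroup.closure (Set.range h), k⁻¹ * g ∈ U}
  have hK : ∀ U, IsClosed (K U) ∧ (K U).Nonempty := by
    intro U
    obtain ⟨A, iA, fA, π, hπ, hker⟩ := exists_finite_quot U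
    let _ : TopologicalSpace A := ⊥
    have : DiscreteTopology A := ⟨rfl⟩
    have hkero : IsOpen (π.ker : Set G) := by
      have : (π.ker : Set G) = (U : Set G) := by
        ext g
        exact hker g
      rw [this]
      exact U.toOpenSubgroup.isOpen
    have hπc : Continuous π := continuous_of_openKer π hkero
    have hKe : K U = (fun h : Fin d → G => fun i => π (h i)) ⁻¹'
        {x | Subgroup.closure (Set.range x) = ⊤} := by
      ext h
      have h1 : (Subgroup.closure (Set.range h)).map π =
          Subgroup.closure (Set.range fun i => π (h i)) := by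
        rw [MonoidHom.map_closure]
        congr 1
        ext a
        simp
      constructor
      · intro hh
        show Subgroup.closure (Set.range fun i => π (h i)) = ⊤
        rw [← h1, eq_top_iff]
        intro a _
        obtain ⟨g, rfl⟩ := hπ a
        obtain ⟨k, hk, hkU⟩ := hh g
        refine ⟨k, hk, ?_⟩
        rw [← hker, map_mul, map_inv, inv_mul_eq_one] at hkU
        exact hkU
      · intro hh g
        have hh' : Subgroup.closure (Set.range fun i => π (h i)) = ⊤ := hh
        rw [← h1] at hh'
        have h2 : π g ∈ (Subgroup.closure (Set.range h)).map π := by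
          rw [hh']
          exact Subgroup.mem_top _
        obtain ⟨k, hk, hkg⟩ := h2
        refine ⟨k, hk, ?_⟩
        rw [← hker, map_mul, map_inv, inv_mul_eq_one]
        exact hkg
    constructor
    · rw [hKe]
      have hc : Continuous (fun h : Fin d → G => fun i => π (h i)) :=
        continuous_pi fun i => hπc.comp (continuous_apply i)
      exact (isClosed_discrete _).preimage hc
    · obtain ⟨x, hx⟩ := H A π hkero hπ
      choose h hh using fun i => hπ (x i)
      refine ⟨h, ?_⟩
      rw [hKe]
      show Subgroup.closure (Set.range fun i => π (h i)) = ⊤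
      have : (fun i => π (h i)) = x := funext hh
      rw [this, hx]
  have hmono : ∀ U V : OpenNormalSubgroup G, (∀ g, g ∈ U → g ∈ V) → K U ⊆ K V := by
    intro U V hUV h hh g
    obtain ⟨k, hk, hkU⟩ := hh g
    exact ⟨k, hk, hUV _ hkU⟩
  have hne : (⋂ U, K U).Nonempty := by
    obtain ⟨U0, -⟩ := ProfiniteGrp.exist_openNormalSubgroup_sub_open_nhds_of_one (G := G)
      isOpen_univ (Set.mem_univ 1)
    have : Nonempty (OpenNormalSubgroup G) := ⟨U0⟩
    apply IsCompact.nonempty_iInter_of_directed_nonempty_isCompact_isClosed K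
    · intro U V
      refine ⟨U ⊓ V, hmono _ _ fun g hg => ?_, hmono _ _ fun g hg => ?_⟩
      · exact hg.1
      · exact hg.2
    · exact fun U => (hK U).2
    · exact fun U => (hK U).1.isCompact
    · exact fun U => (hK U).1
  obtain ⟨h, hh⟩ := hne
  rw [Set.mem_iInter] at hh
  refine ⟨h, ?_⟩
  rw [eq_top_iff]
  intro g _
  by_contra hg
  have hopen : IsOpen {u : G | g * u ∉ (Subgroup.closure (Set.range h)).topologicalClosure} :=
    (Subgroup.isClosed_topologicalClosure (Subgroup.closure (Set.range h))).isOpen_compl.preimage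
      (continuous_const_mul g)
  obtain ⟨U, hU⟩ := ProfiniteGrp.exist_openNormalSubgroup_sub_open_nhds_of_one hopen (by
    show g * 1 ∉ _
    rw [mul_one]
    exact hg)
  obtain ⟨k, hk, hkU⟩ := hh U g
  have h1 : (k⁻¹ * g)⁻¹ ∈ U.toSubgroup := inv_mem hkU
  have h2 := hU h1
  apply h2
  have h3 : g * (k⁻¹ * g)⁻¹ = k := by group
  rw [h3]
  exact Subgroup.le_topologicalClosure _ hk

/-- Finitely generated profinite groups are Hopfian. -/
theorem hopf [T2Space G] [TotallyDisconnectedSpace G] {d : ℕ} (h : Fin d → G)
    (hh : (Subgroup.closure (Set.range h)).topologicalClosure = ⊤) (π : G →* G)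
    (hπc : Continuous π) (hπ : Function.Surjective π) : Function.Injective π := by
  rw [injective_iff_map_eq_one]
  intro g hg
  by_contra hne
  obtain ⟨U, hU⟩ := ProfiniteGrp.exist_openNormalSubgroup_sub_open_nhds_of_one
    (U := ({g} : Set G)ᶜ) isOpen_compl_singleton (fun h => hne h.symm)
  obtain ⟨A, iA, fA, ρ, hρ, hker⟩ := exists_finite_quot U
  let E := {ψ : G →* A // IsOpen (ψ.ker : Set G)}
  have hfin : Finite E := by
    apply Finite.of_injective (fun ψ : E => fun i => ψ.1 (h i))
    intro ψ ψ' he
    exact Subtype.ext (hom_ext h hh ψ.2 ψ'.2 fun i => congrFun he i)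
  let F : E → E := fun ψ => ⟨ψ.1.comp π, by
    have : ((ψ.1.comp π).ker : Set G) = π ⁻¹' (ψ.1.ker : Set G) := rfl
    rw [this]
    exact ψ.2.preimage hπc⟩
  have hinj : Function.Injective F := by
    intro ψ ψ' he
    apply Subtype.ext
    ext x
    obtain ⟨y, rfl⟩ := hπ x
    have h1 : ψ.1.comp π = ψ'.1.comp π := congrArg Subtype.val he
    exact DFunLike.congr_fun h1 y
  have hsurj := Finite.surjective_of_injective hinj
  have hkero : IsOpen (ρ.ker : Set G) := by
    have : (ρ.ker : Set G) = (U : Set G) := by
      ext x
      exact hker x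
    rw [this]
    exact U.toOpenSubgroup.isOpen
  obtain ⟨ψ, hψ⟩ := hsurj ⟨ρ, hkero⟩
  have h2 : ψ.1.comp π = ρ := congrArg Subtype.val hψ
  have h3 : ρ g = 1 := by
    rw [← h2, MonoidHom.comp_apply, hg, map_one]
  exact hU ((hker g).1 h3) rfl

end Pool.Agent.PD71
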