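import Pool.Agent.PD71.Proj
import Pool.Agent.PD71.Gen

/-!
# The minimal group
-/

set_option autoImplicit false

namespace Pool.Agent.PD71

/-- The finite symmetric group with the discrete topology. -/
def D (n : ℕ) : Type := Equiv.Perm (Fin n)

instance (n : ℕ) : Group (D n) := inferInstanceAs (Group (Equiv.Perm (Fin n)))
instance (n : ℕ) : Finite (D n) := inferInstanceAs (Finite (Equiv.Perm (Fin n)))
instance (n : ℕ) : TopologicalSpace (D n) := ⊥
instance (n : ℕ) : DiscreteTopology (D n) := ⟨rfl⟩

/-- Every finite group embeds into some `D n`. -/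
theorem exists_embed (B : Type) [Group B] [Finite B] :
    ∃ (n : ℕ) (κ : B →* D n), Function.Injective κ := by
  obtain ⟨n, ⟨e⟩⟩ := Finite.exists_equiv_fin B
  refine ⟨n, (e.permCongrHom).toMonoidHom.comp (MulAction.toPermHom B B), ?_⟩
  exact e.permCongrHom.injective.comp MulAction.toPerm_injective

variable {ι : Type} (S : ι → Type) [∀ i, Group (S i)] [∀ i, TopologicalSpace (S i)]

/-- The markings of the finite symmetric groups. -/
structure J where
  n : ℕ
  e : ∀ i, S i →* D n
  cont : ∀ i, Continuous (e i)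
  triv : ∃ F : Finset ι, ∀ i, i ∉ F → e i = 1

/-- The big product. -/
abbrev P0 : Type := ∀ j : J S, D j.n

/-- The universal homomorphisms. -/
def s (i : ι) : S i →* P0 S where
  toFun a j := j.e i a
  map_one' := by
    funext j
    exact map_one _
  map_mul' a b := by
    funext j
    exact map_mul _ _ _

theorem s_continuous (i : ι) : Continuous (s S i) := continuous_pi fun j => j.cont i

/-- The closed subgroup generated by the images. -/
def PP : Subgroup (P0 S) :=
  (Subgroup.closure (⋃ i, Set.range (s S i))).topologicalClosure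

theorem s_mem (i : ι) (a : S i) : s S i a ∈ PP S :=
  Subgroup.le_topologicalClosure _
    (Subgroup.subset_closure (Set.mem_iUnion.2 ⟨i, ⟨a, rfl⟩⟩))

theorem PP_closed : IsClosed ((PP S : Subgroup (P0 S)) : Set (P0 S)) :=
  Subgroup.isClosed_topologicalClosure _

variable {S}

theorem PP_le {K : Subgroup (P0 S)} (hK : IsClosed (K : Set (P0 S)))
    (h : ∀ i a, s S i a ∈ K) : PP S ≤ K := by
  apply Subgroup.topologicalClosure_minimal _ _ hK
  rw [Subgroup.closure_le]
  intro x hx
  rw [Set.mem_iUnion] at hx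
  obtain ⟨i, a, rfl⟩ := hx
  exact h i a

/-- Homomorphisms which are almost all trivial in every coordinate tend to `1`. -/
theorem null_of_coord (G : Subgroup (P0 S)) (σ : ∀ i, S i →* G)
    (h : ∀ j : J S, ∃ F : Finset ι, ∀ i, i ∉ F → ∀ a, (σ i a : P0 S) j = 1) : Null σ := by
  classical
  intro U hU h1
  obtain ⟨V, hV, rfl⟩ := isOpen_induced_iff.1 hU
  obtain ⟨I, u, hu, hI⟩ := isOpen_pi_iff.1 hV 1 h1
  choose N hN using h
  refine ⟨I.biUnion N, fun i hi a => ?_⟩
  apply hI
  intro j hj
  have h2 : (σ i a : P0 S) j = 1 :=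
    hN j i (fun h => hi (Finset.mem_biUnion.2 ⟨j, hj, h⟩)) a
  show (σ i a : P0 S) j ∈ u j
  rw [h2]
  exact (hu j hj).2

variable (S) in
/-- The closed subgroups meeting all conjugacy classes. -/
structure Good (H : Subgroup (P0 S)) : Prop where
  closed : IsClosed (H : Set (P0 S))
  le : H ≤ PP S
  conj : ∀ i, ∃ g ∈ PP S, ∀ a, g⁻¹ * s S i a * g ∈ H

variable (S) in
theorem good_PP : Good S (PP S) where
  closed := PP_closed S
  le := le_rfl
  conj := fun i => ⟨1, one_mem _, fun a => by
    rw [inv_one, one_mul, mul_one]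
    exact s_mem S i a⟩

theorem good_conj_closed {H : Subgroup (P0 S)} (hH : Good S H) (i : ι) :
    IsClosed {g : P0 S | g ∈ PP S ∧ ∀ a, g⁻¹ * s S i a * g ∈ H} := by
  have : {g : P0 S | g ∈ PP S ∧ ∀ a, g⁻¹ * s S i a * g ∈ H} =
      (PP S : Set (P0 S)) ∩ ⋂ a, (fun g => g⁻¹ * s S i a * g) ⁻¹' (H : Set (P0 S)) := by
    ext g
    simp only [Set.mem_inter_iff, Set.mem_iInter, Set.mem_preimage, SetLike.mem_coe]
    rfl
  rw [this]
  refine (PP_closed S).inter (isClosed_iInter fun a => hH.closed.preimage ?_)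
  exact (continuous_inv.mul continuous_const).mul continuous_id

variable (S) in
theorem exists_min : ∃ H, Good S H ∧ ∀ K, Good S K → K ≤ H → K = H := by
  obtain ⟨m, ⟨H, hH, rfl⟩, hmin⟩ := zorn_superset {X : Set (P0 S) | ∃ H, Good S H ∧
      (H : Set (P0 S)) = X} (by
    intro c hc hchain
    by_cases hne : c.Nonempty
    · have hne' : Nonempty c := hne.to_subtype
      choose H hH1 hH2 using fun x : c => hc x.2
      have hdir : ∀ x y : c, ∃ z : c, H z ≤ H x ∧ H z ≤ H y := by
        intro x y
        rcases hchain.total x.2 y.2 with h | h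
        · refine ⟨x, le_rfl, ?_⟩
          intro g hg
          have h1 : g ∈ (H x : Set (P0 S)) := hg
          rw [hH2] at h1
          have h2 := h h1
          rw [← hH2] at h2
          exact h2
        · refine ⟨y, ?_, le_rfl⟩
          intro g hg
          have h1 : g ∈ (H y : Set (P0 S)) := hg
          rw [hH2] at h1
          have h2 := h h1
          rw [← hH2] at h2
          exact h2
      refine ⟨((⨅ x, H x : Subgroup (P0 S)) : Set (P0 S)), ⟨_, ⟨?_, ?_, ?_⟩, rfl⟩, ?_⟩
      · rw [Subgroup.coe_iInf]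
        exact isClosed_iInter fun x => (hH1 x).closed
      · exact (iInf_le H hne'.some).trans (hH1 _).le
      · intro i
        have h1 : (⋂ x, {g : P0 S | g ∈ PP S ∧ ∀ a, g⁻¹ * s S i a * g ∈ H x}).Nonempty := by
          apply IsCompact.nonempty_iInter_of_directed_nonempty_isCompact_isClosed
          · intro x y
            obtain ⟨z, hz1, hz2⟩ := hdir x y
            exact ⟨z, fun g hg => ⟨hg.1, fun a => hz1 (hg.2 a)⟩,
              fun g hg => ⟨hg.1, fun a => hz2 (hg.2 a)⟩⟩
          · intro x
            obtain ⟨g, hg, hga⟩ := (hH1 x).conj i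
            exact ⟨g, hg, hga⟩
          · exact fun x => (good_conj_closed (hH1 x) i).isCompact
          · exact fun x => good_conj_closed (hH1 x) i
        obtain ⟨g, hg⟩ := h1
        rw [Set.mem_iInter] at hg
        refine ⟨g, (hg hne'.some).1, fun a => ?_⟩
        rw [Subgroup.mem_iInf]
        exact fun x => (hg x).2 a
      · intro X hX g hg
        have h1 : g ∈ (⨅ x, H x : Subgroup (P0 S)) := hg
        rw [Subgroup.mem_iInf] at h1
        have h2 : g ∈ (H ⟨X, hX⟩ : Set (P0 S)) := h1 ⟨X, hX⟩
        rw [hH2] at h2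
        exact h2
    · rw [Set.not_nonempty_iff_eq_empty] at hne
      subst hne
      exact ⟨_, ⟨PP S, good_PP S, rfl⟩, fun s hs => absurd hs (Set.notMem_empty s)⟩)
  refine ⟨H, hH, fun K hK hKH => ?_⟩
  have h1 := hmin ⟨K, hK, rfl⟩ (fun g hg => hKH hg)
  exact le_antisymm hKH (fun g hg => h1 hg)

end Pool.Agent.PD71
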