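import Pool.Agent.PD71.Space

/-!
# Projectivity of the pile
-/

set_option autoImplicit false

universe u

namespace Pool.Agent.PD71

open OnePoint Pool.Agent.H82.PL

variable {ι : Type} {S : ι → Type} [∀ i, Group (S i)] [∀ i, TopologicalSpace (S i)]
variable {G : Type u} [Group G] [TopologicalSpace G]

/-- The lifting property of `G` relative to the family `σ`. -/
def Lift (σ : ∀ i, S i →* G) : Prop :=
  ∀ (A B : Type) [Group A] [Group B] [Finite A] [Finite B] [TopologicalSpace A]
    [TopologicalSpace B] [DiscreteTopology A] [DiscreteTopology B] (α : B →* A) (φ : G →* A),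
    Continuous φ → ∀ c : ∀ i, S i →* B, (∀ i, Continuous (c i)) →
      (∃ F : Finset ι, ∀ i, i ∉ F → c i = 1) → (∀ i a, α (c i a) = φ (σ i a)) →
      ∃ (γ : G →* B) (w : ι → B), Continuous γ ∧ (∀ g, α (γ g) = φ g) ∧ (∀ i, α (w i) = 1) ∧
        ∀ i a, γ (σ i a) = (w i)⁻¹ * c i a * w i

variable [TopologicalSpace ι] [DiscreteTopology ι]

theorem eventually_const {X : Type*} [TopologicalSpace X] [DiscreteTopology X]
    (f : OnePoint ι → X) (hf : Continuous f) : ∃ F : Finset ι, ∀ n : ι, n ∉ F → f n = f ∞ := by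
  have h1 : IsOpen (f ⁻¹' {f ∞}) := (isOpen_discrete _).preimage hf
  rw [OnePoint.isOpen_iff_of_mem (show (∞ : OnePoint ι) ∈ f ⁻¹' {f ∞} from rfl)] at h1
  have h2 := isCompact_iff_finite.1 h1.2
  refine ⟨h2.toFinset, fun n hn => ?_⟩
  rw [Set.Finite.mem_toFinset] at hn
  by_contra hne
  exact hn (fun h => hne h)

theorem continuous_of_tail {Z X : Type*} [TopologicalSpace Z] [TopologicalSpace X]
    (f : Z × OnePoint ι → X) (h1 : ∀ n : ι, Continuous fun z => f (z, (n : OnePoint ι)))
    (h2 : ∃ F : Finset ι, ∀ z, ∀ n : ι, n ∉ F → f (z, (n : OnePoint ι)) = f (z, ∞))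
    (h3 : Continuous fun z => f (z, ∞)) : Continuous f := by
  rw [continuous_iff_continuousAt]
  rintro ⟨z, i⟩
  induction i using OnePoint.rec with
  | infty =>
    obtain ⟨N, hN⟩ := h2
    have hev : (fun p : Z × OnePoint ι => f (p.1, ∞)) =ᶠ[nhds (z, (∞ : OnePoint ι))] f := by
      have : {p : Z × OnePoint ι | p.2 ∈ tail N} ∈ nhds (z, (∞ : OnePoint ι)) :=
        ((isClopen_tail N).isOpen.preimage continuous_snd).mem_nhds (infty_mem_tail N)
      filter_upwards [this] with p hp
      obtain ⟨x, j⟩ := p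
      induction j using OnePoint.rec with
      | infty => rfl
      | coe n => exact (hN x n (coe_mem_tail.1 hp)).symm
    exact ((h3.comp continuous_fst).continuousAt).congr hev
  | coe n =>
    have hev : (fun p : Z × OnePoint ι => f (p.1, (n : OnePoint ι)))
        =ᶠ[nhds (z, (n : OnePoint ι))] f := by
      have : {p : Z × OnePoint ι | p.2 = (n : OnePoint ι)} ∈ nhds (z, (n : OnePoint ι)) :=
        ((isClopen_pt n).isOpen.preimage continuous_snd).mem_nhds rfl
      filter_upwards [this] with p hp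
      obtain ⟨x, j⟩ := p
      have hp' : j = (n : OnePoint ι) := hp
      rw [hp']
    exact (((h1 n).comp continuous_fst).continuousAt).congr hev

theorem projective_pile [IsTopologicalGroup G] [∀ i, IsTopologicalGroup (S i)]
    (σ : ∀ i, S i →* G) (hc : ∀ i, Continuous (σ i)) (hσ : Null σ) (hL : Lift σ) :
    (pile σ).Projective := by
  classical
  intro A B X Y _ _ _ _ _ _ _ _ _ _ _ _ _ _ Q R φ α hE hR
  -- the images of the base points
  set ξ : OnePoint ι → X := fun i => φ.map (pt σ 1 i) with hξ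
  have hξc : Continuous ξ :=
    φ.map_cont.comp ((continuous_pt σ).comp (continuous_const.prodMk continuous_id))
  obtain ⟨N1, hN1⟩ := eventually_const ξ hξc
  -- `φ (σ n a)` is eventually trivial
  obtain ⟨N2, hN2⟩ : ∃ N2 : Finset ι, ∀ i, i ∉ N2 → ∀ a, φ.hom (σ i a) = 1 :=
    hσ (φ.hom ⁻¹' {1}) ((isOpen_discrete _).preimage φ.hom_cont) (map_one φ.hom)
  obtain ⟨y0, hy0⟩ := hE.2.1 (ξ ∞)
  have hy : ∀ n : ι, ∃ y : Y, α.map y = ξ n ∧ (n ∉ N1 → y = y0) := by
    intro n
    by_cases h : n ∉ N1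
    · exact ⟨y0, by rw [hy0, hN1 n h], fun _ => rfl⟩
    · obtain ⟨y, hy⟩ := hE.2.1 (ξ n)
      exact ⟨y, hy, fun h' => absurd h' h⟩
  choose y hy1 hy2 using hy
  have hst : ∀ n a, φ.hom (σ n a) ∈ Q.stab (α.map (y n)) := by
    intro n a
    rw [hy1, Pile.mem_stab]
    show Q.act (φ.map (pt σ 1 n)) (φ.hom (σ n a)) = φ.map (pt σ 1 n)
    rw [← φ.equiv]
    congr 1
    have : σ n a ∈ (pile σ).stab (pt σ 1 (n : OnePoint ι)) := by
      rw [stab_coe]
      exact ⟨a, rfl⟩
    exact this
  have hcc : ∀ n a, ∃ b, b ∈ R.stab (y n) ∧ α.hom b = φ.hom (σ n a) := by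
    intro n a
    obtain ⟨b, hb, hb'⟩ := (hR.1 (y n)).surjOn (hst n a)
    exact ⟨b, hb, hb'⟩
  choose c hc1 hc2 using hcc
  have hinj : ∀ n b b', b ∈ R.stab (y n) → b' ∈ R.stab (y n) → α.hom b = α.hom b' → b = b' :=
    fun n b b' hb hb' h => (hR.1 (y n)).injOn hb hb' h
  let C : ∀ i, S i →* B := fun i =>
    { toFun := c i
      map_one' := hinj i _ _ (hc1 i 1) (Subgroup.one_mem _) (by rw [hc2, map_one, map_one, map_one])
      map_mul' := fun a b => hinj i _ _ (hc1 i _) (Subgroup.mul_mem _ (hc1 i a) (hc1 i b)) (by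
        rw [hc2, map_mul, map_mul, map_mul, hc2, hc2]) }
  have hCc : ∀ i, Continuous (C i) := by
    intro i
    apply continuous_of_continuousAt_one
    rw [ContinuousAt, map_one]
    have h1 : Continuous fun a => φ.hom (σ i a) := φ.hom_cont.comp (hc i)
    have h2 : (fun a => φ.hom (σ i a)) ⁻¹' {1} ∈ nhds (1 : S i) :=
      ((isOpen_discrete _).preimage h1).mem_nhds (by
        show φ.hom (σ i 1) = 1
        rw [map_one, map_one])
    intro U hU
    rw [Filter.mem_map]
    filter_upwards [h2] with a ha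
    have ha' : φ.hom (σ i a) = 1 := ha
    have h3 : c i a = 1 :=
      hinj i _ _ (hc1 i a) (Subgroup.one_mem _) (by rw [hc2, ha', map_one])
    show c i a ∈ U
    rw [h3]
    exact mem_of_mem_nhds hU
  have hCt : ∀ i, i ∉ N2 → C i = 1 := by
    intro i hi
    ext a
    show c i a = 1
    exact hinj i _ _ (hc1 i a) (Subgroup.one_mem _) (by rw [hc2, hN2 i hi a, map_one])
  obtain ⟨γ, w0, hγc, hγα, hw0, hγσ0⟩ :=
    hL A B α.hom φ.hom φ.hom_cont C hCc ⟨N2, hCt⟩ hc2
  -- make `w` eventually trivial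
  set w : ι → B := fun i => if i ∉ N2 then 1 else w0 i with hw
  have hwα : ∀ i, α.hom (w i) = 1 := by
    intro i
    by_cases h : i ∉ N2
    · simp only [hw, if_pos h, map_one]
    · simp only [hw, if_neg h]
      exact hw0 i
  have hγσ : ∀ i a, γ (σ i a) = (w i)⁻¹ * C i a * w i := by
    intro i a
    by_cases h : i ∉ N2
    · rw [hγσ0, hCt i h]
      simp
    · simp only [hw, if_neg h]
      exact hγσ0 i a
  -- the map on points
  let F : G × OnePoint ι → Y := fun p =>
    Option.elim p.2 (R.act y0 (γ p.1)) (fun n => R.act (y n) (w n * γ p.1))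
  have hF1 : ∀ g, F (g, ∞) = R.act y0 (γ g) := fun _ => rfl
  have hF2 : ∀ g (n : ι), F (g, (n : OnePoint ι)) = R.act (y n) (w n * γ g) := fun _ _ => rfl
  have hFc : Continuous F := by
    have hcR : ∀ z : Y, ∀ v : B, Continuous fun g : G => R.act z (v * γ g) := by
      intro z v
      have h1 : Continuous fun b : B => R.act z (v * b) := continuous_of_discreteTopology
      exact h1.comp hγc
    apply continuous_of_tail F
    · intro n
      exact hcR (y n) (w n)
    · refine ⟨N1 ∪ N2, fun g n hn => ?_⟩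
      rw [Finset.mem_union, not_or] at hn
      rw [hF1, hF2, hy2 n hn.1]
      simp only [hw, if_pos hn.2, one_mul]
    · have h1 := hcR y0 1
      simp only [one_mul] at h1
      exact h1
  have hFr : ∀ p q : G × OnePoint ι, (rel σ).r p q → F p = F q := by
    rintro ⟨g, i⟩ ⟨h, j⟩ ⟨h1, h2⟩
    have h1' : i = j := h1
    subst h1'
    change h * g⁻¹ ∈ sub σ i at h2
    induction i using OnePoint.rec with
    | infty =>
      rw [sub_infty, Subgroup.mem_bot, mul_inv_eq_one] at h2
      rw [h2]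
    | coe n =>
      rw [sub_coe] at h2
      obtain ⟨a, ha⟩ := h2
      have h3 : h = σ n a * g := by rw [ha]; group
      rw [hF2, hF2, h3, map_mul, hγσ]
      have h4 : w n * ((w n)⁻¹ * C n a * w n * γ g) = C n a * (w n * γ g) := by group
      rw [h4, R.act_mul (y n) (C n a) (w n * γ g)]
      congr 1
      exact (hc1 n a).symm
  refine ⟨{ hom := γ, map := Quotient.lift F hFr, hom_cont := hγc, map_cont := ?_, equiv := ?_ },
    hγα, ?_⟩
  · exact hFc.quotient_lift hFr
  · intro t g
    obtain ⟨⟨x, i⟩, rfl⟩ := surjective_pt σ t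
    show F (x * g, i) = R.act (F (x, i)) (γ g)
    induction i using OnePoint.rec with
    | infty => rw [hF1, hF1, map_mul, R.act_mul]
    | coe n => rw [hF2, hF2, map_mul, ← R.act_mul, mul_assoc]
  · intro t
    obtain ⟨⟨x, i⟩, rfl⟩ := surjective_pt σ t
    show α.map (F (x, i)) = φ.map (pt σ x i)
    have hx : pt σ x i = (pile σ).act (pt σ 1 i) x := by rw [pile_act, one_mul]
    rw [hx, φ.equiv]
    induction i using OnePoint.rec with
    | infty => rw [hF1, α.equiv, hy0, hγα]
    | coe n => rw [hF2, α.equiv, hy1, map_mul, hwα, one_mul, hγα]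

end Pool.Agent.PD71
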