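import Mathlib
import Pool.Agent.H82.Pile.Defs

/-!
# The pile attached to a null family of compact subgroups
-/

set_option autoImplicit false

universe u

namespace Pool.Agent.PD71

open OnePoint Pool.Agent.H82.PL

variable {ι : Type} [TopologicalSpace ι] [DiscreteTopology ι]

/-- The complement of the finite set `F`. -/
def tail (F : Finset ι) : Set (OnePoint ι) := {x | ∀ m ∈ F, x ≠ (m : OnePoint ι)}

theorem isClopen_pt (n : ι) : IsClopen {x : OnePoint ι | x = (n : OnePoint ι)} := by
  constructor
  · exact isClosed_singleton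
  · have h := OnePoint.isOpenEmbedding_coe (X := ι)
    have h1 := h.isOpenMap {n} (isOpen_discrete _)
    rw [Set.image_singleton] at h1
    exact h1

theorem isClopen_tail (F : Finset ι) : IsClopen (tail F) := by
  have h : tail F = ⋂ m ∈ (F : Set ι), {x : OnePoint ι | x = (m : OnePoint ι)}ᶜ := by
    ext x
    simp [tail]
  rw [h]
  exact F.finite_toSet.isClopen_biInter fun m _ => (isClopen_pt m).compl

omit [TopologicalSpace ι] [DiscreteTopology ι] in
theorem infty_mem_tail (F : Finset ι) : (∞ : OnePoint ι) ∈ tail F :=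
  fun m _ => OnePoint.infty_ne_coe m

omit [TopologicalSpace ι] [DiscreteTopology ι] in
theorem coe_mem_tail {F : Finset ι} {n : ι} : (n : OnePoint ι) ∈ tail F ↔ n ∉ F := by
  constructor
  · intro h hn
    exact h n hn rfl
  · intro h m hm he
    rw [OnePoint.coe_eq_coe] at he
    exact h (he ▸ hm)

variable {S : ι → Type} [∀ i, Group (S i)]
variable {G : Type u} [Group G]

/-- The stabilizer of the base point over `i`. -/
def sub (σ : ∀ i, S i →* G) (i : OnePoint ι) : Subgroup G :=
  Option.elim i ⊥ (fun n => (σ n).range)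

omit [TopologicalSpace ι] [DiscreteTopology ι] in
theorem sub_infty (σ : ∀ i, S i →* G) : sub σ ∞ = ⊥ := rfl

omit [TopologicalSpace ι] [DiscreteTopology ι] in
theorem sub_coe (σ : ∀ i, S i →* G) (n : ι) : sub σ (n : OnePoint ι) = (σ n).range := rfl

/-- The equivalence relation. -/
def rel (σ : ∀ i, S i →* G) : Setoid (G × OnePoint ι) where
  r p q := p.2 = q.2 ∧ q.1 * p.1⁻¹ ∈ sub σ p.2
  iseqv := {
    refl := fun p => ⟨rfl, by rw [mul_inv_cancel]; exact Subgroup.one_mem _⟩
    symm := by
      rintro ⟨g, i⟩ ⟨h, j⟩ ⟨h1, h2⟩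
      have h1' : i = j := h1
      subst h1'
      refine ⟨rfl, ?_⟩
      have h3 := Subgroup.inv_mem _ h2
      simpa using h3
    trans := by
      rintro ⟨g, i⟩ ⟨h, j⟩ ⟨k, l⟩ ⟨h1, h2⟩ ⟨h3, h4⟩
      have h1' : i = j := h1
      subst h1'
      have h3' : i = l := h3
      subst h3'
      refine ⟨rfl, ?_⟩
      have h5 := Subgroup.mul_mem _ h4 h2
      simpa [mul_assoc] using h5 }

/-- The space. -/
def Sp (σ : ∀ i, S i →* G) : Type u := Quotient (rel σ)

/-- The point `[g, i]`. -/
def pt (σ : ∀ i, S i →* G) (g : G) (i : OnePoint ι) : Sp σ := Quotient.mk (rel σ) (g, i)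

omit [TopologicalSpace ι] [DiscreteTopology ι] in
theorem pt_eq (σ : ∀ i, S i →* G) {g h : G} {i j : OnePoint ι} :
    pt σ g i = pt σ h j ↔ i = j ∧ h * g⁻¹ ∈ sub σ i := by
  constructor
  · intro hh
    exact Quotient.exact hh
  · intro hh
    exact Quotient.sound hh

/-- The action. -/
def actT (σ : ∀ i, S i →* G) (t : Sp σ) (h : G) : Sp σ :=
  Quotient.lift (s := rel σ) (fun p : G × OnePoint ι => pt σ (p.1 * h) p.2) (by
    rintro ⟨g, i⟩ ⟨g', i'⟩ ⟨h1, h2⟩
    have h1' : i = i' := h1
    subst h1'
    rw [pt_eq]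
    refine ⟨rfl, ?_⟩
    simpa [mul_assoc] using h2) t

omit [TopologicalSpace ι] [DiscreteTopology ι] in
theorem actT_pt (σ : ∀ i, S i →* G) (g : G) (i : OnePoint ι) (h : G) :
    actT σ (pt σ g i) h = pt σ (g * h) i := rfl

omit [TopologicalSpace ι] [DiscreteTopology ι] in
theorem surjective_pt (σ : ∀ i, S i →* G) :
    Function.Surjective (fun p : G × OnePoint ι => pt σ p.1 p.2) :=
  Quotient.mk_surjective

variable [TopologicalSpace G]

instance (σ : ∀ i, S i →* G) : TopologicalSpace (Sp σ) :=
  inferInstanceAs (TopologicalSpace (Quotient (rel σ)))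

instance [CompactSpace G] (σ : ∀ i, S i →* G) : CompactSpace (Sp σ) :=
  inferInstanceAs (CompactSpace (Quotient (rel σ)))

/-- The family of homomorphisms tends to `1`. -/
def Null (σ : ∀ i, S i →* G) : Prop :=
  ∀ U : Set G, IsOpen U → (1 : G) ∈ U → ∃ F : Finset ι, ∀ i, i ∉ F → ∀ a, σ i a ∈ U

omit [DiscreteTopology ι] in
theorem continuous_pt (σ : ∀ i, S i →* G) :
    Continuous (fun p : G × OnePoint ι => pt σ p.1 p.2) :=
  continuous_quotient_mk'

theorem isOpenMap_pt [IsTopologicalGroup G] (σ : ∀ i, S i →* G) :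
    IsOpenMap (fun p : G × OnePoint ι => pt σ p.1 p.2) := by
  intro V hV
  have hq : Topology.IsQuotientMap (fun p : G × OnePoint ι => pt σ p.1 p.2) :=
    isQuotientMap_quotient_mk'
  rw [← hq.isOpen_preimage, isOpen_iff_mem_nhds]
  rintro ⟨g, i⟩ ⟨⟨g', i'⟩, hV', he⟩
  have he' : pt σ g' i' = pt σ g i := he
  rw [pt_eq] at he'
  obtain ⟨rfl, h1⟩ := he'
  induction i' using OnePoint.rec with
  | infty =>
    rw [sub_infty, Subgroup.mem_bot, mul_inv_eq_one] at h1
    subst h1
    filter_upwards [hV.mem_nhds hV'] with p hp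
    exact ⟨p, hp, rfl⟩
  | coe n =>
    rw [sub_coe] at h1
    obtain ⟨a, ha⟩ := h1
    have hc : Continuous (fun p : G × OnePoint ι => ((σ n a)⁻¹ * p.1, p.2)) := by fun_prop
    have h2 : (fun p : G × OnePoint ι => ((σ n a)⁻¹ * p.1, p.2)) (g, (n : OnePoint ι)) ∈ V := by
      have : (σ n a)⁻¹ * g = g' := by rw [ha]; group
      show ((σ n a)⁻¹ * g, (n : OnePoint ι)) ∈ V
      rw [this]
      exact hV'
    have h3 := hc.continuousAt.preimage_mem_nhds (hV.mem_nhds h2)
    have h4 : {p : G × OnePoint ι | p.2 = (n : OnePoint ι)} ∈ nhds (g, (n : OnePoint ι)) :=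
      ((isClopen_pt n).isOpen.preimage continuous_snd).mem_nhds rfl
    filter_upwards [h3, h4] with p hp hp'
    obtain ⟨x, j⟩ := p
    have hj : j = (n : OnePoint ι) := hp'
    subst hj
    refine ⟨((σ n a)⁻¹ * x, (n : OnePoint ι)), hp, ?_⟩
    show pt σ _ _ = pt σ _ _
    rw [pt_eq]
    refine ⟨rfl, ?_⟩
    rw [sub_coe]
    exact ⟨a, by group⟩

theorem isOpenQuotientMap_pt [IsTopologicalGroup G] (σ : ∀ i, S i →* G) :
    IsOpenQuotientMap (fun p : G × OnePoint ι => pt σ p.1 p.2) :=
  ⟨surjective_pt σ, continuous_pt σ, isOpenMap_pt σ⟩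

/-- The pile of the null family `σ`. -/
def pile [IsTopologicalGroup G] (σ : ∀ i, S i →* G) : Pile G (Sp σ) where
  act := actT σ
  act_one t := by
    obtain ⟨⟨g, i⟩, rfl⟩ := surjective_pt σ t
    show actT σ (pt σ g i) 1 = pt σ g i
    rw [actT_pt, mul_one]
  act_mul t x y := by
    obtain ⟨⟨g, i⟩, rfl⟩ := surjective_pt σ t
    show actT σ (pt σ g i) (x * y) = actT σ (actT σ (pt σ g i) x) y
    rw [actT_pt, actT_pt, actT_pt, mul_assoc]
  cont := by
    have h := (isOpenQuotientMap_pt σ).prodMap (IsOpenQuotientMap.id (X := G))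
    rw [h.isQuotientMap.continuous_iff]
    have : (fun p : Sp σ × G => actT σ p.1 p.2) ∘
        Prod.map (fun p : G × OnePoint ι => pt σ p.1 p.2) id =
        fun q : (G × OnePoint ι) × G => pt σ (q.1.1 * q.2) q.1.2 := rfl
    rw [this]
    exact (continuous_pt σ).comp
      ((((continuous_fst.comp continuous_fst).mul continuous_snd)).prodMk
        (continuous_snd.comp continuous_fst))

theorem pile_act [IsTopologicalGroup G] (σ : ∀ i, S i →* G) (g : G) (i : OnePoint ι) (h : G) :
    (pile σ).act (pt σ g i) h = pt σ (g * h) i := rfl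

theorem mem_stab_pile [IsTopologicalGroup G] (σ : ∀ i, S i →* G) (g : G) (i : OnePoint ι) (h : G) :
    h ∈ (pile σ).stab (pt σ g i) ↔ g * h * g⁻¹ ∈ sub σ i := by
  rw [Pile.mem_stab, pile_act, eq_comm, pt_eq]
  simp

theorem stab_coe [IsTopologicalGroup G] (σ : ∀ i, S i →* G) (n : ι) :
    (pile σ).stab (pt σ 1 (n : OnePoint ι)) = (σ n).range := by
  ext h
  rw [mem_stab_pile, sub_coe]
  simp

/-- A clopen set upstairs which is a union of classes gives a clopen set. -/
theorem isClopen_image [IsTopologicalGroup G] (σ : ∀ i, S i →* G) {V : Set (G × OnePoint ι)}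
    (hV : IsClopen V) (hs : ∀ g h i, h * g⁻¹ ∈ sub σ i → (g, i) ∈ V → (h, i) ∈ V) :
    IsClopen ((fun p : G × OnePoint ι => pt σ p.1 p.2) '' V) := by
  have hpre : (fun p : G × OnePoint ι => pt σ p.1 p.2) ⁻¹'
      ((fun p : G × OnePoint ι => pt σ p.1 p.2) '' V) = V := by
    ext ⟨h, i⟩
    constructor
    · rintro ⟨⟨g, j⟩, hg, he⟩
      have he' : pt σ g j = pt σ h i := he
      rw [pt_eq] at he'
      obtain ⟨rfl, h1⟩ := he'
      exact hs g h j h1 hg
    · intro h
      exact ⟨_, h, rfl⟩
  constructor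
  · rw [← (isOpenQuotientMap_pt σ).isQuotientMap.isClosed_preimage, hpre]
    exact hV.isClosed
  · exact isOpenMap_pt σ V hV.isOpen

/-- A union of cosets of an open subgroup is clopen. -/
theorem isClopen_of_mul [IsTopologicalGroup G] (U : OpenNormalSubgroup G) (W : Set G)
    (h : ∀ x ∈ W, ∀ u ∈ U.toSubgroup, x * u ∈ W) : IsClopen W := by
  have key : ∀ W : Set G, (∀ x ∈ W, ∀ u ∈ U.toSubgroup, x * u ∈ W) → IsOpen W := by
    intro W h
    rw [isOpen_iff_mem_nhds]
    intro x hx
    have h1 : (fun y => x⁻¹ * y) ⁻¹' (U.toSubgroup : Set G) ∈ nhds x := by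
      apply (continuous_const_mul x⁻¹).continuousAt.preimage_mem_nhds
      rw [inv_mul_cancel]
      exact U.toOpenSubgroup.isOpen.mem_nhds (one_mem _)
    filter_upwards [h1] with y hy
    have h2 := h x hx _ hy
    rwa [mul_inv_cancel_left] at h2
  refine ⟨⟨key Wᶜ ?_⟩, key W h⟩
  intro x hx u hu hxu
  apply hx
  have h2 := h _ hxu u⁻¹ (inv_mem hu)
  rwa [mul_inv_cancel_right] at h2

theorem totallySeparated [IsTopologicalGroup G] [CompactSpace G] [T2Space G]
    [TotallyDisconnectedSpace G] [∀ i, TopologicalSpace (S i)] [∀ i, CompactSpace (S i)]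
    (σ : ∀ i, S i →* G) (hc : ∀ i, Continuous (σ i)) (hσ : Null σ) :
    TotallySeparatedSpace (Sp σ) := by
  classical
  rw [totallySeparatedSpace_iff_exists_isClopen]
  intro t t' htt'
  obtain ⟨⟨g, i⟩, rfl⟩ := surjective_pt σ t
  obtain ⟨⟨g', i'⟩, rfl⟩ := surjective_pt σ t'
  change pt σ g i ≠ pt σ g' i' at htt'
  have key : ∃ V : Set (G × OnePoint ι), IsClopen V ∧
      (∀ g h i, h * g⁻¹ ∈ sub σ i → (g, i) ∈ V → (h, i) ∈ V) ∧ (g, i) ∈ V ∧ (g', i') ∉ V := by
    by_cases hii : i = i'
    · subst hii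
      induction i using OnePoint.rec with
      | infty =>
        have hne : g⁻¹ * g' ∈ ({1} : Set G)ᶜ := by
          intro h
          apply htt'
          have h' : g⁻¹ * g' = 1 := h
          rw [inv_mul_eq_one] at h'
          rw [h']
        obtain ⟨U, hU⟩ := ProfiniteGrp.exist_openNormalSubgroup_sub_open_nhds_of_one
          (U := ({g⁻¹ * g'} : Set G)ᶜ) isOpen_compl_singleton (fun h => hne h.symm)
        have hUn : U.toSubgroup.Normal := U.isNormal'
        obtain ⟨N, hN⟩ := hσ (U : Set G) U.toOpenSubgroup.isOpen (one_mem U.toSubgroup)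
        refine ⟨{p | g⁻¹ * p.1 ∈ U ∧ p.2 ∈ tail N}, ?_, ?_, ?_, ?_⟩
        · have h1 : IsClopen {p : G × OnePoint ι | g⁻¹ * p.1 ∈ U} :=
            (show IsClopen ((U.toSubgroup : Subgroup G) : Set G) from
              ⟨U.toOpenSubgroup.isClosed, U.toOpenSubgroup.isOpen⟩).preimage
              ((continuous_const_mul _).comp continuous_fst)
          exact h1.inter ((isClopen_tail N).preimage continuous_snd)
        · rintro x y j hxy ⟨h1, h2⟩
          refine ⟨?_, h2⟩
          have h3 : y * x⁻¹ ∈ U.toSubgroup := by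
            induction j using OnePoint.rec with
            | infty =>
              rw [sub_infty, Subgroup.mem_bot] at hxy
              rw [hxy]
              exact one_mem _
            | coe n =>
              rw [sub_coe] at hxy
              obtain ⟨a, ha⟩ := hxy
              rw [← ha]
              exact hN n (coe_mem_tail.1 h2) a
          have h4 : g⁻¹ * y = (g⁻¹ * (y * x⁻¹) * g⁻¹⁻¹) * (g⁻¹ * x) := by group
          show g⁻¹ * y ∈ U.toSubgroup
          rw [h4]
          exact mul_mem (hUn.conj_mem _ h3 _) h1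
        · refine ⟨?_, infty_mem_tail N⟩
          show g⁻¹ * g ∈ U.toSubgroup
          rw [inv_mul_cancel]
          exact one_mem _
        · rintro ⟨h1, -⟩
          exact hU h1 rfl
      | coe n =>
        have hg' : ∀ a, σ n a * g ≠ g' := by
          intro a ha
          apply htt'
          rw [pt_eq]
          refine ⟨rfl, ?_⟩
          rw [sub_coe]
          refine ⟨a, ?_⟩
          rw [← ha]
          group
        have hopen : IsOpen {u : G | ∀ a, σ n a * g * u ≠ g'} := by
          have h1 : {u : G | ∀ a, σ n a * g * u ≠ g'} =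
              (Set.range fun a => (σ n a * g)⁻¹ * g')ᶜ := by
            ext u
            constructor
            · rintro hu ⟨a, ha⟩
              apply hu a
              rw [← ha]
              group
            · intro hu a ha
              apply hu
              refine ⟨a, ?_⟩
              show (σ n a * g)⁻¹ * g' = u
              rw [← ha]
              group
          rw [h1]
          have h2 : Continuous fun a => (σ n a * g)⁻¹ * g' :=
            (((hc n).mul continuous_const).inv).mul continuous_const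
          exact (isCompact_range h2).isClosed.isOpen_compl
        obtain ⟨U, hU⟩ := ProfiniteGrp.exist_openNormalSubgroup_sub_open_nhds_of_one
          (U := {u : G | ∀ a, σ n a * g * u ≠ g'}) hopen (by
            intro a ha
            rw [mul_one] at ha
            exact hg' a ha)
        refine ⟨{p | (∃ a, (σ n a * g)⁻¹ * p.1 ∈ U.toSubgroup) ∧ p.2 = (n : OnePoint ι)},
          ?_, ?_, ?_, ?_⟩
        · have h1 : IsClopen {x : G | ∃ a, (σ n a * g)⁻¹ * x ∈ U.toSubgroup} := by
            apply isClopen_of_mul U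
            rintro x ⟨a, ha⟩ u hu
            refine ⟨a, ?_⟩
            rw [← mul_assoc]
            exact mul_mem ha hu
          exact (h1.preimage continuous_fst).inter ((isClopen_pt n).preimage continuous_snd)
        · rintro x y j hxy ⟨⟨a, ha⟩, h2⟩
          have h2' : j = (n : OnePoint ι) := h2
          subst h2'
          refine ⟨?_, rfl⟩
          rw [sub_coe] at hxy
          obtain ⟨b, hb⟩ := hxy
          refine ⟨b * a, ?_⟩
          have h3 : (σ n (b * a) * g)⁻¹ * y = (σ n a * g)⁻¹ * x := by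
            rw [map_mul, hb]
            group
          show (σ n (b * a) * g)⁻¹ * y ∈ U.toSubgroup
          rw [h3]
          exact ha
        · refine ⟨⟨1, ?_⟩, rfl⟩
          show (σ n 1 * g)⁻¹ * g ∈ U.toSubgroup
          rw [map_one, one_mul, inv_mul_cancel]
          exact one_mem _
        · rintro ⟨⟨a, ha⟩, -⟩
          exact hU ha a (by group)
    · -- different indices
      have h : ∃ W : Set (OnePoint ι), IsClopen W ∧ i ∈ W ∧ i' ∉ W := by
        induction i using OnePoint.rec with
        | infty =>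
          induction i' using OnePoint.rec with
          | infty => exact absurd rfl hii
          | coe m =>
            refine ⟨tail {m}, isClopen_tail _, infty_mem_tail _, ?_⟩
            rw [coe_mem_tail]
            simp
        | coe n => exact ⟨_, isClopen_pt n, rfl, fun h => hii h.symm⟩
      obtain ⟨W, hW, h1, h2⟩ := h
      exact ⟨{p | p.2 ∈ W}, hW.preimage continuous_snd, fun _ _ _ _ h => h, h1, h2⟩
  obtain ⟨V, hV, hs, h1, h2⟩ := key
  refine ⟨_, isClopen_image σ hV hs, ⟨_, h1, rfl⟩, ?_⟩
  rintro ⟨⟨x, j⟩, hx, he⟩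
  have he' : pt σ x j = pt σ g' i' := he
  rw [pt_eq] at he'
  obtain ⟨rfl, h3⟩ := he'
  exact h2 (hs x g' j h3 hx)

end Pool.Agent.PD71
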