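import Pool.Agent.PD71.Grp
import Pool.Agent.PD71.Defs

/-!
# The lifting property of the minimal group
-/

set_option autoImplicit false

namespace Pool.Agent.PD71

open Pool.Agent.H82.PL

variable {ι : Type} {S : ι → Type} [∀ i, Group (S i)] [∀ i, TopologicalSpace (S i)]

theorem s_injective [∀ i, IsTopologicalGroup (S i)] [∀ i, CompactSpace (S i)]
    [∀ i, T2Space (S i)] [∀ i, TotallyDisconnectedSpace (S i)] (i : ι) :
    Function.Injective (s S i) := by
  classical
  rw [injective_iff_map_eq_one]
  intro a ha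
  by_contra hne
  obtain ⟨U, hU⟩ := ProfiniteGrp.exist_openNormalSubgroup_sub_open_nhds_of_one
    (U := ({a} : Set (S i))ᶜ) isOpen_compl_singleton (fun h => hne h.symm)
  obtain ⟨A, iA, fA, ρ, hρ, hker⟩ := exists_finite_quot U
  obtain ⟨n, κ, hκ⟩ := exists_embed A
  have hopen : IsOpen ((κ.comp ρ).ker : Set (S i)) := by
    have : ((κ.comp ρ).ker : Set (S i)) = (U : Set (S i)) := by
      ext x
      show κ (ρ x) = 1 ↔ x ∈ U
      rw [← hker, map_eq_one_iff κ hκ]
    rw [this]
    exact U.toOpenSubgroup.isOpen
  let j : J S :=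
    { n := n
      e := Function.update (β := fun k => S k →* D n) (fun _ => 1) i (κ.comp ρ)
      cont := by
        intro k
        by_cases hk : k = i
        · subst hk
          rw [Function.update_self]
          exact continuous_of_openKer _ hopen
        · rw [Function.update_of_ne hk]
          exact continuous_const
      triv := ⟨{i}, fun k hk => by
        rw [Function.update_of_ne (by simpa using hk)]⟩ }
  have h1 : s S i a j = κ (ρ a) := by
    show Function.update (β := fun k => S k →* D n) (fun _ => 1) i (κ.comp ρ) i a = κ (ρ a)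
    rw [Function.update_self]
    rfl
  have h2 : κ (ρ a) = 1 := by rw [← h1, ha]; rfl
  have h3 : ρ a = 1 := hκ (by rw [h2, map_one])
  exact hU ((hker a).1 h3) rfl

/-- The restriction of a continuous homomorphism to a finite group given by a marking. -/
theorem exists_hom {B : Type} [Group B] [Finite B] [TopologicalSpace B] [DiscreteTopology B]
    (c : ∀ i, S i →* B) (hcc : ∀ i, Continuous (c i))
    (hc : ∃ F : Finset ι, ∀ i, i ∉ F → c i = 1) :
    ∃ γ : PP S →* B, Continuous γ ∧ ∀ i a, γ ⟨s S i a, s_mem S i a⟩ = c i a := by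
  obtain ⟨n, κ, hκ⟩ := exists_embed B
  let j : J S :=
    { n := n
      e := fun i => κ.comp (c i)
      cont := fun i => (continuous_of_discreteTopology (f := κ)).comp (hcc i)
      triv := by
        obtain ⟨N, hN⟩ := hc
        exact ⟨N, fun i hi => by rw [hN i hi, MonoidHom.comp_one]⟩ }
  let ev : P0 S →* D n := Pi.evalMonoidHom (fun j : J S => D j.n) j
  have hevc : Continuous ev := continuous_apply j
  have hev : ∀ i a, ev (s S i a) = κ (c i a) := fun _ _ => rfl
  have hmem : ∀ x : PP S, ev x ∈ κ.range := by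
    have h1 : PP S ≤ κ.range.comap ev := by
      apply PP_le
      · rw [Subgroup.coe_comap]
        exact (isClosed_discrete _).preimage hevc
      · intro i a
        exact ⟨c i a, (hev i a).symm⟩
    exact fun x => h1 x.2
  choose γ hγ using hmem
  refine ⟨{ toFun := γ, map_one' := ?_, map_mul' := ?_ }, ?_, ?_⟩
  · apply hκ
    rw [hγ, map_one, Subgroup.coe_one, map_one]
  · intro x y
    apply hκ
    rw [hγ, map_mul, hγ, hγ, Subgroup.coe_mul, map_mul]
  · rw [continuous_discrete_rng]
    intro b
    have : (γ ⁻¹' {b}) = (fun x : PP S => ev x) ⁻¹' {κ b} := by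
      ext x
      constructor
      · intro hx
        have hx' : γ x = b := hx
        show ev x = κ b
        rw [← hx', hγ]
      · intro hx
        have hx' : ev x = κ b := hx
        show γ x = b
        apply hκ
        rw [hγ, hx']
    show IsOpen (γ ⁻¹' {b})
    rw [this]
    exact (isOpen_discrete _).preimage (hevc.comp continuous_subtype_val)
  · intro i a
    apply hκ
    show κ (γ ⟨s S i a, s_mem S i a⟩) = _
    rw [hγ]
    exact hev i a

/-- Two continuous homomorphisms on `PP` agree if they agree on the generators. -/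
theorem hom_ext_PP {A : Type*} [Group A] [TopologicalSpace A] [T2Space A] {f g : PP S →* A}
    (hf : Continuous f) (hg : Continuous g)
    (h : ∀ i a, f ⟨s S i a, s_mem S i a⟩ = g ⟨s S i a, s_mem S i a⟩) (x : PP S) : f x = g x := by
  have h1 : PP S ≤ (f.eqLocus g).map (PP S).subtype := by
    apply PP_le
    · rw [Subgroup.coe_map]
      have h2 : IsClosed ((f.eqLocus g : Subgroup (PP S)) : Set (PP S)) := isClosed_eq hf hg
      exact ((PP_closed S).isClosedEmbedding_subtypeVal.isClosedMap) _ h2
    · intro i a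
      exact ⟨⟨s S i a, s_mem S i a⟩, h i a, rfl⟩
  obtain ⟨y, hy, hyx⟩ := h1 x.2
  have : y = x := Subtype.ext hyx
  rw [← this]
  exact hy

theorem main_group [∀ i, IsTopologicalGroup (S i)] [∀ i, CompactSpace (S i)]
    [∀ i, T2Space (S i)] [∀ i, TotallyDisconnectedSpace (S i)] (d : ℕ) (hT : Test S d) :
    ∃ (G : Subgroup (P0 S)) (σ : ∀ i, S i →* G), IsClosed (G : Set (P0 S)) ∧
      (∃ h : Fin d → G, (Subgroup.closure (Set.range h)).topologicalClosure = ⊤) ∧
      (∀ i, Continuous (σ i)) ∧ Null σ ∧ Lift σ ∧ ∀ i, Function.Injective (σ i) := by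
  classical
  obtain ⟨G, hG, hmin⟩ := exists_min S
  choose g hg hgs using hG.conj
  let σ : ∀ i, S i →* G := fun i =>
    { toFun := fun a => ⟨(g i)⁻¹ * s S i a * g i, hgs i a⟩
      map_one' := by
        apply Subtype.ext
        show (g i)⁻¹ * s S i 1 * g i = 1
        rw [map_one]
        group
      map_mul' := fun a b => by
        apply Subtype.ext
        show (g i)⁻¹ * s S i (a * b) * g i =
          ((g i)⁻¹ * s S i a * g i) * ((g i)⁻¹ * s S i b * g i)
        rw [map_mul]
        group }
  have hσv : ∀ i a, (σ i a : P0 S) = (g i)⁻¹ * s S i a * g i := fun _ _ => rfl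
  have hσc : ∀ i, Continuous (σ i) := fun i =>
    (((continuous_const.mul (s_continuous S i)).mul continuous_const)).subtype_mk _
  have hcoord : ∀ j : J S, ∃ F : Finset ι, ∀ i, i ∉ F → ∀ a, (σ i a : P0 S) j = 1 := by
    intro j
    obtain ⟨N, hN⟩ := j.triv
    refine ⟨N, fun i hi a => ?_⟩
    rw [hσv]
    show (g i j)⁻¹ * j.e i a * g i j = 1
    rw [hN i hi]
    simp
  have hnull : Null σ := null_of_coord G σ hcoord
  have hGc : CompactSpace G := isCompact_iff_compactSpace.1 hG.closed.isCompact
  -- closed subgroups of `G` containing conjugates of all images are equal to `G`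
  have hmin' : ∀ K : Subgroup G, IsClosed (K : Set G) →
      (∀ i, ∃ y : G, ∀ a, y⁻¹ * σ i a * y ∈ K) → K = ⊤ := by
    intro K hK hKc
    have h1 : K.map G.subtype = G := by
      apply hmin
      · refine ⟨?_, ?_, ?_⟩
        · rw [Subgroup.coe_map]
          exact (hG.closed.isClosedEmbedding_subtypeVal.isClosedMap) _ hK
        · exact (Subgroup.map_subtype_le K).trans hG.le
        · intro i
          obtain ⟨y, hy⟩ := hKc i
          refine ⟨g i * y, mul_mem (hg i) (hG.le y.2), fun a => ⟨_, hy a, ?_⟩⟩
          show ((y : P0 S))⁻¹ * ((g i)⁻¹ * s S i a * g i) * (y : P0 S) = _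
          group
      · exact Subgroup.map_subtype_le K
    rw [eq_top_iff]
    intro x _
    have h2 : (x : P0 S) ∈ K.map G.subtype := by
      rw [h1]
      exact x.2
    obtain ⟨z, hz, hzx⟩ := h2
    have h3 : z = x := Subtype.ext hzx
    rw [← h3]
    exact hz
  -- topological generation
  have hgen : ∃ h : Fin d → G, (Subgroup.closure (Set.range h)).topologicalClosure = ⊤ := by
    apply topGen
    intro X _ _ ρ hρo hρ
    let _ : TopologicalSpace X := ⊥
    have : DiscreteTopology X := ⟨rfl⟩
    have hρc : Continuous ρ := continuous_of_openKer ρ hρo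
    obtain ⟨N, hN⟩ := hnull (ρ.ker : Set G) hρo (one_mem _)
    obtain ⟨x, hx⟩ := hT X (fun i => ρ.comp (σ i)) (fun i => hρo.preimage (hσc i)) (by
      apply N.finite_toSet.subset
      intro i hi
      by_contra hiN
      apply hi
      ext a
      exact hN i hiN a)
    refine ⟨x, ?_⟩
    have h1 : (Subgroup.closure (Set.range x)).comap ρ = ⊤ := by
      apply hmin'
      · rw [Subgroup.coe_comap]
        exact (isClosed_discrete _).preimage hρc
      · intro i
        obtain ⟨y, hy⟩ := hx i
        obtain ⟨z, rfl⟩ := hρ y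
        refine ⟨z, fun a => ?_⟩
        rw [Subgroup.mem_comap]
        have := hy a
        simpa using this
    rw [eq_top_iff]
    intro y _
    obtain ⟨z, rfl⟩ := hρ y
    have h2 : z ∈ (Subgroup.closure (Set.range x)).comap ρ := by
      rw [h1]
      exact Subgroup.mem_top _
    exact h2
  -- the endomorphism `θ` of the product
  let idx : J S → J S := fun j =>
    { n := j.n
      e := fun i => (Pi.evalMonoidHom (fun j : J S => D j.n) j).comp (G.subtype.comp (σ i))
      cont := fun i => (continuous_apply j).comp (continuous_subtype_val.comp (hσc i))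
      triv := by
        obtain ⟨N, hN⟩ := hcoord j
        exact ⟨N, fun i hi => by
          ext a
          exact hN i hi a⟩ }
  let θ : P0 S →* P0 S :=
    { toFun := fun x j => x (idx j)
      map_one' := rfl
      map_mul' := fun _ _ => rfl }
  have hθc : Continuous θ := continuous_pi fun j => continuous_apply (idx j)
  have hθs : ∀ i a, θ (s S i a) = σ i a := fun _ _ => rfl
  have hθP : ∀ x ∈ PP S, θ x ∈ G := by
    have h1 : PP S ≤ G.comap θ := by
      apply PP_le
      · exact hG.closed.preimage hθc
      · intro i a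
        show θ (s S i a) ∈ G
        rw [hθs]
        exact (σ i a).2
    exact fun x hx => h1 hx
  let θP : PP S →* G := (θ.comp (PP S).subtype).codRestrict G (fun x => hθP x x.2)
  have hθPc : Continuous θP := (hθc.comp continuous_subtype_val).subtype_mk _
  let inc : G →* PP S := Subgroup.inclusion hG.le
  have hincc : Continuous inc := continuous_subtype_val.subtype_mk _
  let π : G →* G := θP.comp inc
  have hπc : Continuous π := hθPc.comp hincc
  let u : ι → G := fun i => θP ⟨g i, hg i⟩
  have hπσ : ∀ i a, π (σ i a) = (u i)⁻¹ * σ i a * u i := by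
    intro i a
    have h1 : inc (σ i a) = (⟨g i, hg i⟩ : PP S)⁻¹ * ⟨s S i a, s_mem S i a⟩ * ⟨g i, hg i⟩ := rfl
    show θP (inc (σ i a)) = _
    rw [h1, map_mul, map_mul, map_inv]
    rfl
  have hπs : Function.Surjective π := by
    rw [← MonoidHom.range_eq_top]
    apply hmin'
    · rw [MonoidHom.coe_range]
      exact (isCompact_range hπc).isClosed
    · intro i
      exact ⟨u i, fun a => ⟨σ i a, hπσ i a⟩⟩
  obtain ⟨h, hh⟩ := hgen
  have hπi : Function.Injective π := hopf h hh π hπc hπs
  let πe : G ≃* G := MulEquiv.ofBijective π ⟨hπi, hπs⟩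
  have hπec : Continuous πe.symm := by
    have h1 : Continuous πe.toEquiv := hπc
    exact Continuous.continuous_symm_of_equiv_compact_to_t2 (f := πe.toEquiv) h1
  refine ⟨G, σ, hG.closed, ⟨h, hh⟩, hσc, hnull, ?_, ?_⟩
  · intro A B _ _ _ _ _ _ _ _ α φ hφ c hcc hc hαc
    obtain ⟨γ0, hγ0c, hγ0⟩ := exists_hom c hcc hc
    -- `α ∘ γ0 = φ ∘ θP`
    have h1 : ∀ x : PP S, α (γ0 x) = φ (θP x) := by
      have h2 := hom_ext_PP (f := α.comp γ0) (g := φ.comp θP)
        ((continuous_of_discreteTopology (f := α)).comp hγ0c) (hφ.comp hθPc) (by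
          intro i a
          show α (γ0 _) = φ (θP _)
          rw [hγ0, hαc]
          rfl)
      exact h2
    let γ : G →* B := (γ0.comp inc).comp πe.symm.toMonoidHom
    have hγπ : ∀ x : G, γ (π x) = γ0 (inc x) := by
      intro x
      show γ0 (inc (πe.symm (πe x))) = _
      rw [πe.symm_apply_apply]
    refine ⟨γ, fun i => γ0 ⟨g i, hg i⟩ * (γ (u i))⁻¹, ?_, ?_, ?_, ?_⟩
    · exact (hγ0c.comp hincc).comp hπec
    · intro x
      obtain ⟨y, rfl⟩ := hπs x
      rw [hγπ, h1]
      rfl
    · intro i
      have h3 : α (γ (u i)) = φ (u i) := by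
        obtain ⟨y, hy⟩ := hπs (u i)
        rw [← hy, hγπ, h1]
        rfl
      rw [map_mul, map_inv, h3, h1, mul_inv_cancel]
    · intro i a
      have h4 : γ (π (σ i a)) = (γ0 ⟨g i, hg i⟩)⁻¹ * c i a * γ0 ⟨g i, hg i⟩ := by
        rw [hγπ]
        have h5 : inc (σ i a) =
            (⟨g i, hg i⟩ : PP S)⁻¹ * ⟨s S i a, s_mem S i a⟩ * ⟨g i, hg i⟩ := rfl
        rw [h5, map_mul, map_mul, map_inv, hγ0]
      rw [hπσ, map_mul, map_mul, map_inv] at h4
      have h6 : γ (σ i a) = γ (u i) * ((γ (u i))⁻¹ * γ (σ i a) * γ (u i)) * (γ (u i))⁻¹ := by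
        group
      rw [h6, h4]
      group
  · intro i
    rw [injective_iff_map_eq_one]
    intro a ha
    have h1 : (g i)⁻¹ * s S i a * g i = 1 := congrArg Subtype.val ha
    have h2 : s S i a = 1 := by
      have h3 : s S i a = g i * ((g i)⁻¹ * s S i a * g i) * (g i)⁻¹ := by group
      rw [h3, h1]
      group
    exact s_injective i (by rw [h2, map_one])

end Pool.Agent.PD71
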